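import Pool.Agent.Y826.LM.Defs
import Pool.Agent.Y246.LD.Fin

/-! LMD (job 2263, helper929 for helper826): from tuples to moduli -/

set_option autoImplicit false

open Finset Filter

namespace Pool.Agent.Y826.LM

open Pool.Agent.Y826.Z (Pr tau)
open Pool.Agent.Y826.ZL (Cd)
open Pool.Agent.Y826.LD (psi E)

/-- the inequalities are stable -/
theorem ineq_stable {δ δ' a b ν ν' : ℝ} {y y' : Fin 5 → ℝ} (h : Ineq δ ν' y') (ha : |ν - ν'| ≤ a)
    (hb : ∀ i, |y i - y' i| ≤ b) (hδ : 67 * b + 10 * a + δ' ≤ δ) : Ineq δ' ν y := by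
  intro η hη
  have ha0 : 0 ≤ a := (abs_nonneg _).trans ha
  have hb0 : 0 ≤ b := (abs_nonneg _).trans (hb 0)
  obtain ⟨a1, a2⟩ := abs_le.1 ha
  obtain ⟨b01, b02⟩ := abs_le.1 (hb 0)
  obtain ⟨b11, b12⟩ := abs_le.1 (hb 1)
  obtain ⟨b21, b22⟩ := abs_le.1 (hb 2)
  obtain ⟨b31, b32⟩ := abs_le.1 (hb 3)
  obtain ⟨b41, b42⟩ := abs_le.1 (hb 4)
  obtain ⟨η', hη'⟩ : ∃ η' : ℝ, η' = max 0 (y' 0 + y' 1 + 2 * y' 2 + 2 * y' 3 + 2 * y' 4 - (1 - ν')) :=
    ⟨_, rfl⟩
  obtain ⟨c1, c2, c3, c4, c5⟩ := h η' hη'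
  have e0 : 0 ≤ η' := hη' ▸ le_max_left _ _
  have e1 : y' 0 + y' 1 + 2 * y' 2 + 2 * y' 3 + 2 * y' 4 - (1 - ν') ≤ η' := hη' ▸ le_max_right _ _
  have e2 : η ≤ η' + (8 * b + a) := by
    rw [hη]
    refine max_le (by linarith) (by linarith)
  refine ⟨by linarith, by linarith, by linarith, by linarith, by linarith⟩

/-- greedy distribution of small items -/
theorem greedy {ι : Type*} [DecidableEq ι] {β : ℝ} (hβ : 0 ≤ β) (s : ι → ℝ) (r : Fin 5 → ℝ)
    (hr : ∀ i, 0 ≤ r i) (B : Finset ι) (h0 : ∀ j ∈ B, 0 ≤ s j) (h1 : ∀ j ∈ B, s j ≤ β)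
    (h2 : ∑ j ∈ B, s j ≤ ∑ i, r i) :
    ∃ g : ι → Fin 5, ∀ i, ∑ j ∈ B.filter (fun j => g j = i), s j ≤ r i + β := by
  induction B using Finset.induction_on with
  | empty =>
    refine ⟨fun _ => 0, fun i => ?_⟩
    rw [Finset.filter_empty, Finset.sum_empty]
    linarith [hr i]
  | insert a B ha ih =>
    have hs : ∑ j ∈ insert a B, s j = s a + ∑ j ∈ B, s j := Finset.sum_insert ha
    have ha0 : 0 ≤ s a := h0 a (Finset.mem_insert_self _ _)
    have ha1 : s a ≤ β := h1 a (Finset.mem_insert_self _ _)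
    obtain ⟨g, hg⟩ := ih (fun j hj => h0 j (Finset.mem_insert_of_mem hj))
      (fun j hj => h1 j (Finset.mem_insert_of_mem hj)) (by linarith)
    obtain ⟨c, hc⟩ : ∃ c, ∑ j ∈ B.filter (fun j => g j = c), s j ≤ r c := by
      by_contra hcon
      push Not at hcon
      have e1 : ∑ c, ∑ j ∈ B.filter (fun j => g j = c), s j = ∑ j ∈ B, s j :=
        Finset.sum_fiberwise B g s
      have e2 : ∑ c, r c < ∑ c, ∑ j ∈ B.filter (fun j => g j = c), s j :=
        Finset.sum_lt_sum_of_nonempty ⟨0, Finset.mem_univ _⟩ (fun c _ => hcon c)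
      linarith
    refine ⟨Function.update g a c, fun i => ?_⟩
    have hsame : B.filter (fun j => Function.update g a c j = i) = B.filter (fun j => g j = i) := by
      refine Finset.filter_congr fun j hj => ?_
      rw [Function.update_of_ne (by rintro rfl; exact ha hj)]
    rw [Finset.filter_insert, Function.update_self]
    by_cases hci : c = i
    · subst hci
      rw [if_pos rfl, Finset.sum_insert (fun h => ha (Finset.mem_filter.1 h).1), hsame]
      linarith
    · rw [if_neg hci, hsame]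
      exact hg i

/-- greedy distribution, both bounds -/
theorem greedy2 {ι : Type*} [DecidableEq ι] {β : ℝ} (hβ : 0 ≤ β) (s : ι → ℝ) (r : Fin 5 → ℝ)
    (hr : ∀ i, 0 ≤ r i) (B : Finset ι) (h0 : ∀ j ∈ B, 0 ≤ s j) (h1 : ∀ j ∈ B, s j ≤ β)
    (h2 : ∑ j ∈ B, s j = ∑ i, r i) :
    ∃ g : ι → Fin 5, ∀ i, |∑ j ∈ B.filter (fun j => g j = i), s j - r i| ≤ 4 * β := by
  obtain ⟨g, hg⟩ := greedy hβ s r hr B h0 h1 h2.le
  have e1 : ∑ c, ∑ j ∈ B.filter (fun j => g j = c), s j = ∑ j ∈ B, s j :=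
    Finset.sum_fiberwise B g s
  rw [h2, Fin.sum_univ_five, Fin.sum_univ_five] at e1
  have g0 := hg 0
  have g1 := hg 1
  have g2 := hg 2
  have g3 := hg 3
  have g4 := hg 4
  refine ⟨g, fun i => ?_⟩
  rw [abs_le]
  fin_cases i <;> constructor <;> simp only [Fin.zero_eta, Fin.mk_one, Fin.reduceFinMk] <;> linarith

/-- the decomposition of a modulus; the large primes are coordinates of their own -/
theorem dec (H : Finset (ℤ × ℤ)) (N : ℕ) (hN : 0 < N) : ∃ (K : ℕ) (h : Fin K → ℤ × ℤ)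
    (G : Finset (Fin K)), (∀ j, h j ∈ H) ∧ ∀ (z : ℝ) (d l : ℕ), 1 < z → Squarefree d →
      (d : ℝ) ≤ z ^ N → (d : ℤ) ∣ ∏ h ∈ H, (h.1 * (l : ℤ) + h.2) →
      ∃ q : Fin K → ℕ, Pr q = d ∧ (∀ j, 1 ≤ q j) ∧ Cd h q l ∧
        (∀ j ∈ G, q j = 1 ∨ (q j).Prime) ∧ ∀ j ∉ G, (q j : ℝ) ≤ z ^ 2 := by
  classical
  let e0 := Fintype.equivFin ({h // h ∈ H} × (Fin N ⊕ Fin N))
  refine ⟨Fintype.card ({h // h ∈ H} × (Fin N ⊕ Fin N)), fun j => ((e0.symm j).1 : ℤ × ℤ),
    Finset.univ.filter (fun j => ∃ c, (e0.symm j).2 = Sum.inl c), fun j => (e0.symm j).1.2, ?_⟩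
  intro z d l hz1 hsq hd hdvd
  have hz : 1 ≤ z := hz1.le
  have hd0 : d ≠ 0 := hsq.ne_zero
  -- labels
  have hlab : ∀ p ∈ d.primeFactors, ∃ h : {h // h ∈ H}, (p : ℤ) ∣ h.1.1 * (l : ℤ) + h.1.2 := by
    intro p hp
    have hp1 : (p : ℤ) ∣ ∏ h ∈ H, (h.1 * (l : ℤ) + h.2) :=
      (Int.natCast_dvd_natCast.2 (Nat.dvd_of_mem_primeFactors hp)).trans hdvd
    obtain ⟨h, hh, hh2⟩ := (Prime.dvd_finsetProd_iff
      (Nat.prime_iff_prime_int.1 (Nat.prime_of_mem_primeFactors hp)) _).1 hp1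
    exact ⟨⟨h, hh⟩, hh2⟩
  have hsub : ∀ P : Finset ℕ, P ⊆ d.primeFactors → ((∏ p ∈ P, p : ℕ) : ℝ) ≤ z ^ N := by
    intro P hP
    refine le_trans ?_ hd
    have h1 : ∏ p ∈ P, p ≤ ∏ p ∈ d.primeFactors, p :=
      Finset.prod_le_prod_of_subset_of_one_le' hP
        (fun p hp _ => (Nat.prime_of_mem_primeFactors hp).one_le)
    rw [Nat.prod_primeFactors_of_squarefree hsq] at h1
    exact_mod_cast h1
  -- bins
  obtain ⟨f, hf⟩ := Pool.Agent.Y246.LD.bins (N := N) hz
    (d.primeFactors.filter (fun p : ℕ => ¬ z < (p : ℝ)))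
    (fun p hp => (Nat.prime_of_mem_primeFactors (Finset.mem_filter.1 hp).1).one_le)
    (fun p hp => not_lt.1 (Finset.mem_filter.1 hp).2) (hsub _ (Finset.filter_subset _ _)) hN
  -- large primes
  have hcard : (d.primeFactors.filter (fun p : ℕ => z < (p : ℝ))).card ≤ N := by
    have h1 := hsub (d.primeFactors.filter (fun p : ℕ => z < (p : ℝ))) (Finset.filter_subset _ _)
    have h2 : z ^ (d.primeFactors.filter (fun p : ℕ => z < (p : ℝ))).card ≤
        ((∏ p ∈ d.primeFactors.filter (fun p : ℕ => z < (p : ℝ)), p : ℕ) : ℝ) := by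
      rw [Nat.cast_prod, ← Finset.prod_const]
      exact Finset.prod_le_prod (fun _ _ => by linarith) fun p hp => (Finset.mem_filter.1 hp).2.le
    exact (pow_le_pow_iff_right₀ hz1).1 (h2.trans h1)
  obtain ⟨u, hu⟩ : ∃ u : ℕ → Fin N, ∀ p ∈ d.primeFactors.filter (fun p : ℕ => z < (p : ℝ)),
      ∀ p' ∈ d.primeFactors.filter (fun p : ℕ => z < (p : ℝ)), u p = u p' → p = p' := by
    obtain ⟨em⟩ : Nonempty ({p // p ∈ d.primeFactors.filter (fun p : ℕ => z < (p : ℝ))} ↪ Fin N) :=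
      Function.Embedding.nonempty_of_card_le (by
        rw [Fintype.card_coe, Fintype.card_fin]
        exact hcard)
    refine ⟨fun p => if hp : p ∈ d.primeFactors.filter (fun p : ℕ => z < (p : ℝ)) then
      em ⟨p, hp⟩ else ⟨0, hN⟩, fun p hp p' hp' h => ?_⟩
    simp only [dif_pos hp, dif_pos hp'] at h
    exact congrArg Subtype.val (em.injective h)
  rcases isEmpty_or_nonempty {h // h ∈ H} with hE | ⟨⟨hx⟩⟩
  · -- no forms: `d = 1`
    have hd1 : d.primeFactors = ∅ := by
      rw [Finset.eq_empty_iff_forall_notMem]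
      intro p hp
      obtain ⟨h, -⟩ := hlab p hp
      exact hE.elim h
    have hd2 : d = 1 := by
      rw [← Nat.prod_primeFactors_of_squarefree hsq, hd1, Finset.prod_empty]
    refine ⟨fun _ => 1, ?_, fun _ => le_rfl, fun j => ?_, fun j _ => Or.inl rfl, fun j _ => ?_⟩
    · rw [hd2]
      simp [Pr]
    · simp
    · simp only [Nat.cast_one]
      nlinarith
  · have : Inhabited {h // h ∈ H} := ⟨hx⟩
    choose! lab hlab using hlab
    let g : ℕ → Fin (Fintype.card ({h // h ∈ H} × (Fin N ⊕ Fin N))) := fun p =>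
      e0 (lab p, if z < (p : ℝ) then Sum.inl (u p) else Sum.inr (f p))
    have hg1 : ∀ p, (e0.symm (g p)).1 = lab p := by
      intro p
      simp only [g, Equiv.symm_apply_apply]
    have hg2 : ∀ p : ℕ, (e0.symm (g p)).2 = if z < (p : ℝ) then Sum.inl (u p) else Sum.inr (f p) := by
      intro p
      simp only [g, Equiv.symm_apply_apply]
    refine ⟨fun j => ∏ p ∈ d.primeFactors.filter (fun p => g p = j), p, ?_, ?_, ?_, ?_, ?_⟩
    · unfold Pr
      rw [Finset.prod_fiberwise d.primeFactors g (fun p => p)]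
      exact Nat.prod_primeFactors_of_squarefree hsq
    · intro j
      exact Finset.one_le_prod' (fun p hp =>
        (Nat.prime_of_mem_primeFactors (Finset.mem_filter.1 hp).1).one_le)
    · intro j
      rw [Int.natCast_dvd]
      refine Finset.prod_primes_dvd _
        (fun p hp => (Nat.prime_of_mem_primeFactors (Finset.mem_filter.1 hp).1).prime)
        (fun p hp => ?_)
      obtain ⟨hp1, hp2⟩ := Finset.mem_filter.1 hp
      rw [← Int.natCast_dvd]
      have h1 := hlab p hp1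
      have h2 : (e0.symm j).1 = lab p := by rw [← hp2, hg1]
      rw [← h2] at h1
      exact h1
    · intro j hj
      obtain ⟨c, hc⟩ := (Finset.mem_filter.1 hj).2
      rcases (d.primeFactors.filter (fun p => g p = j)).eq_empty_or_nonempty with he | ⟨p, hp⟩
      · left
        beta_reduce
        rw [he, Finset.prod_empty]
      · right
        have hlarge : ∀ p' ∈ d.primeFactors.filter (fun p => g p = j),
            p' ∈ d.primeFactors.filter (fun p : ℕ => z < (p : ℝ)) ∧ u p' = c := by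
          intro p' hp'
          obtain ⟨h1, h2⟩ := Finset.mem_filter.1 hp'
          rw [← h2, hg2] at hc
          by_cases hz2 : z < (p' : ℝ)
          · rw [if_pos hz2] at hc
            exact ⟨Finset.mem_filter.2 ⟨h1, hz2⟩, Sum.inl.inj hc⟩
          · rw [if_neg hz2] at hc
            exact absurd hc (by simp)
        have h3 : d.primeFactors.filter (fun p => g p = j) = {p} := by
          refine Finset.eq_singleton_iff_unique_mem.2 ⟨hp, fun p' hp' => ?_⟩
          exact hu p' (hlarge p' hp').1 p (hlarge p hp).1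
            ((hlarge p' hp').2.trans (hlarge p hp).2.symm)
        beta_reduce
        rw [h3, Finset.prod_singleton]
        exact Nat.prime_of_mem_primeFactors (Finset.mem_filter.1 hp).1
    · intro j hj
      obtain ⟨c, hc⟩ : ∃ c, (e0.symm j).2 = Sum.inr c := by
        rcases hcc : (e0.symm j).2 with c | c
        · exact absurd (Finset.mem_filter.2 ⟨Finset.mem_univ _, c, hcc⟩) hj
        · exact ⟨c, rfl⟩
      refine le_trans ?_ (hf c)
      have h2 : ∏ p ∈ d.primeFactors.filter (fun p => g p = j), p ≤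
          ∏ p ∈ (d.primeFactors.filter (fun p : ℕ => ¬ z < (p : ℝ))).filter (fun p => f p = c), p := by
        refine Finset.prod_le_prod_of_subset_of_one_le' ?_
          (fun p hp _ => (Nat.prime_of_mem_primeFactors
            (Finset.mem_filter.1 (Finset.mem_filter.1 hp).1).1).one_le)
        intro p hp
        obtain ⟨hp1, hp2⟩ := Finset.mem_filter.1 hp
        rw [← hp2, hg2] at hc
        by_cases hz2 : z < (p : ℝ)
        · rw [if_pos hz2] at hc
          exact absurd hc (by simp)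
        · rw [if_neg hz2] at hc
          exact Finset.mem_filter.2 ⟨Finset.mem_filter.2 ⟨hp1, hz2⟩, Sum.inr.inj hc⟩
      exact_mod_cast h2

/-- the tuple of a good modulus is good -/
theorem goodP_of {K : ℕ} {G : Finset (Fin K)} {x δ γ : ℝ} (hx : 1 < x) (hδ : 0 < δ)
    (hγ0 : 0 < γ) (hγ : γ ≤ δ / 800) (q : Fin K → ℕ) (hq : ∀ j, 1 ≤ q j) (hsq : Squarefree (Pr q))
    (hG : ∀ j ∈ G, q j = 1 ∨ (q j).Prime) (hS : ∀ j ∉ G, (q j : ℝ) ≤ (x ^ γ) ^ 2)
    (hd : GoodD δ x (Pr q)) : GoodP (δ / 100) (lg x q) := by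
  classical
  have hlx : 0 < Real.log x := Real.log_pos hx
  have hx0 : 0 < x := by linarith
  have hqpos : ∀ j, (0 : ℝ) < q j := fun j => by
    exact_mod_cast lt_of_lt_of_le Nat.zero_lt_one (hq j)
  have hq1 : ∀ j, (1 : ℝ) ≤ q j := fun j => by exact_mod_cast hq j
  intro ν hν1 hν2
  -- clamp
  obtain ⟨ν', n1, n2, n3⟩ : ∃ ν' : ℝ, 1 / 3 ≤ ν' ∧ ν' ≤ 1 / 2 ∧ |ν - ν'| ≤ δ / 100 := by
    rcases le_total ν (1 / 3) with h | h
    · exact ⟨1 / 3, le_rfl, by norm_num, by rw [abs_le]; constructor <;> linarith⟩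
    · rcases le_total ν (1 / 2) with h' | h'
      · exact ⟨ν, h, h', by rw [sub_self, abs_zero]; positivity⟩
      · exact ⟨1 / 2, by norm_num, le_rfl, by rw [abs_le]; constructor <;> linarith⟩
  obtain ⟨e, he, hin⟩ := hd ν' n1 n2
  have hI := hin _ (fun i => rfl)
  have hprod0 : Pr q ≠ 0 := hsq.ne_zero
  have he0 : ∀ i, e i ≠ 0 := by
    intro i hi
    refine hprod0 ?_
    rw [← he]
    exact Finset.prod_eq_zero (Finset.mem_univ i) hi
  have hepos : ∀ i, (0 : ℝ) < e i := fun i => by exact_mod_cast Nat.pos_of_ne_zero (he0 i)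
  -- the groups of the large primes
  have hgr : ∀ j ∈ G, ∃ i, q j ∣ e i := by
    intro j hj
    rcases hG j hj with h | h
    · exact ⟨0, by rw [h]; exact one_dvd _⟩
    · have h1 : q j ∣ ∏ i, e i := by
        rw [he]
        exact Finset.dvd_prod_of_mem q (Finset.mem_univ j)
      obtain ⟨i, -, hi⟩ := (Prime.dvd_finsetProd_iff h.prime _).1 h1
      exact ⟨i, hi⟩
  choose! g1 hg1 using hgr
  have hcop : ∀ i j : Fin K, i ≠ j → (q i).Coprime (q j) := by
    intro i j hij
    have h1 : q i * q j ∣ Pr q := by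
      unfold Pr
      rw [← Finset.mul_prod_erase univ q (Finset.mem_univ i)]
      exact Nat.mul_dvd_mul_left _ (Finset.dvd_prod_of_mem q
        (Finset.mem_erase.2 ⟨hij.symm, Finset.mem_univ j⟩))
    exact Nat.coprime_of_squarefree_mul (hsq.squarefree_of_dvd h1)
  have hdv : ∀ i, ∏ j ∈ G.filter (fun j => g1 j = i), q j ∣ e i := by
    intro i
    refine Finset.prod_dvd_of_isRelPrime (fun a _ b _ hab => (Nat.coprime_iff_isRelPrime.1 (hcop a b hab))) ?_
    intro j hj
    obtain ⟨j1, j2⟩ := Finset.mem_filter.1 hj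
    rw [← j2]
    exact hg1 j j1
  have hsumlog : ∀ S : Finset (Fin K), ∑ j ∈ S, lg x q j = Real.log ((∏ j ∈ S, q j : ℕ) : ℝ) / Real.log x := by
    intro S
    unfold lg
    rw [Nat.cast_prod, Real.log_prod (fun j _ => (hqpos j).ne'), Finset.sum_div]
  set r : Fin 5 → ℝ := fun i => Real.log (e i) / Real.log x -
    ∑ j ∈ G.filter (fun j => g1 j = i), lg x q j with hr
  have hr0 : ∀ i, 0 ≤ r i := by
    intro i
    rw [hr]
    beta_reduce
    rw [hsumlog, sub_nonneg]
    refine div_le_div_of_nonneg_right ?_ hlx.le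
    refine Real.log_le_log ?_ ?_
    · exact_mod_cast Finset.prod_pos fun j _ => hq j
    · exact_mod_cast Nat.le_of_dvd (Nat.pos_of_ne_zero (he0 i)) (hdv i)
  have hrsum : ∑ j ∈ Gᶜ, lg x q j = ∑ i, r i := by
    rw [hr, Finset.sum_sub_distrib, Finset.sum_fiberwise G g1 (lg x q), ← Finset.sum_div,
      ← Real.log_prod (fun i _ => (hepos i).ne'), ← Nat.cast_prod, he]
    have h1 := Finset.sum_compl_add_sum G (lg x q)
    rw [hsumlog univ] at h1
    have h2 : (∏ j, q j : ℕ) = Pr q := rfl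
    rw [h2] at h1
    linarith
  obtain ⟨g2, hg2⟩ := greedy2 (β := 2 * γ) (by linarith) (lg x q) r hr0 Gᶜ
    (fun j _ => div_nonneg (Real.log_nonneg (hq1 j)) hlx.le) (fun j hj => by
      unfold lg
      rw [div_le_iff₀ hlx]
      have h1 := Real.log_le_log (hqpos j) (hS j (Finset.mem_compl.1 hj))
      rw [Real.log_pow, Real.log_rpow hx0] at h1
      push_cast at h1
      linarith) hrsum
  refine ⟨fun j => if j ∈ G then g1 j else g2 j, fun y hy => ?_⟩
  refine ineq_stable (b := 8 * γ) hI n3 (fun i => ?_) (by linarith)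
  have h3 : y i = ∑ j ∈ G.filter (fun j => g1 j = i), lg x q j +
      ∑ j ∈ Gᶜ.filter (fun j => g2 j = i), lg x q j := by
    rw [hy i, ← Finset.sum_filter_add_sum_filter_not (univ.filter
      (fun j => (if j ∈ G then g1 j else g2 j) = i)) (fun j => j ∈ G)]
    congr 1
    · refine Finset.sum_congr ?_ fun _ _ => rfl
      ext j
      simp only [Finset.mem_filter, Finset.mem_univ, true_and]
      constructor
      · rintro ⟨h4, h5⟩
        rw [if_pos h5] at h4
        exact ⟨h5, h4⟩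
      · rintro ⟨h4, h5⟩
        rw [if_pos h4]
        exact ⟨h5, h4⟩
    · refine Finset.sum_congr ?_ fun _ _ => rfl
      ext j
      simp only [Finset.mem_filter, Finset.mem_univ, true_and, Finset.mem_compl]
      constructor
      · rintro ⟨h4, h5⟩
        rw [if_neg h5] at h4
        exact ⟨h5, h4⟩
      · rintro ⟨h4, h5⟩
        rw [if_neg h4]
        exact ⟨h5, h4⟩
  have h4 := hg2 i
  have h5 : y i - Real.log (e i) / Real.log x = ∑ j ∈ Gᶜ.filter (fun j => g2 j = i), lg x q j - r i := by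
    rw [h3, hr]
    ring
  rw [h5]
  linarith

/-- **from tuples to moduli** -/
theorem mainm (hP : S_PIM) : S_MAIN := by
  classical
  intro H hH δ hδ κ U
  obtain ⟨γ, hγ0, hγ1, hγ2⟩ : ∃ γ : ℝ, 0 < γ ∧ γ ≤ δ / 800 ∧ γ ≤ 1 :=
    ⟨min (δ / 800) 1, by positivity, min_le_left _ _, min_le_right _ _⟩
  obtain ⟨N, hN1⟩ : ∃ N : ℕ, 1 / γ ≤ N := exists_nat_ge _
  have hN : 0 < N := by
    rcases Nat.eq_zero_or_pos N with h | h
    · rw [h, Nat.cast_zero] at hN1
      have : 0 < 1 / γ := by positivity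
      linarith
    · exact h
  obtain ⟨K, h, G, hh, hdec⟩ := dec H N hN
  -- large `x`
  have hev := hP K h (fun j => hH _ (hh j)) (δ / 100) (by positivity) U κ
  obtain ⟨x0, hx0⟩ := eventually_atTop.1 hev
  set x1 := max x0 3 with hx1
  have hx13 : 3 ≤ x1 := le_max_right _ _
  set B0 : ℝ := x1 * (((κ : ℝ) + 1) ^ ⌊x1⌋₊ * (3 * x1)) with hB0
  have hB00 : 0 ≤ B0 := by positivity
  have hlog1 : 0 < Real.log x1 := Real.log_pos (by linarith)
  refine ⟨1 + B0 * (Real.log x1) ^ U, fun x hx y l => ?_⟩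
  have hlx : 0 < Real.log x := Real.log_pos (by linarith)
  have hxU : 0 < x / (Real.log x) ^ U := by positivity
  set D := (Icc 1 ⌊x ^ (53 / 100 : ℝ)⌋₊).filter (fun d : ℕ => Squarefree d ∧
    ((d : ℝ) ≤ x ^ (1 / 2 - δ) ∨ GoodD δ x d) ∧
    2 ≤ y d ∧ y d ≤ x ∧ (l d).Coprime d ∧ (d : ℤ) ∣ ∏ h ∈ H, (h.1 * (l d : ℤ) + h.2)) with hD
  have hDmem : ∀ d ∈ D, 1 ≤ d ∧ (d : ℝ) ≤ x ^ (53 / 100 : ℝ) ∧ Squarefree d ∧
    ((d : ℝ) ≤ x ^ (1 / 2 - δ) ∨ GoodD δ x d) ∧
    2 ≤ y d ∧ y d ≤ x ∧ (l d).Coprime d ∧ (d : ℤ) ∣ ∏ h ∈ H, (h.1 * (l d : ℤ) + h.2) := by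
    intro d hd
    rw [hD, Finset.mem_filter, Finset.mem_Icc] at hd
    refine ⟨hd.1.1, ?_, hd.2⟩
    exact (Nat.cast_le.2 hd.1.2).trans (Nat.floor_le (Real.rpow_nonneg (by linarith) _))
  have hdx : ∀ d ∈ D, (d : ℝ) ≤ x := by
    intro d hd
    refine (hDmem d hd).2.1.trans ?_
    calc x ^ (53 / 100 : ℝ) ≤ x ^ (1 : ℝ) :=
          Real.rpow_le_rpow_of_exponent_le (by linarith) (by norm_num)
      _ = x := Real.rpow_one x
  have hgoal : ∑ d ∈ D, (κ : ℝ) ^ d.primeFactors.card * |E (y d) d (l d)| ≤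
      (1 + B0 * (Real.log x1) ^ U) * (x / (Real.log x) ^ U) := by
    by_cases hxx : x1 ≤ x
    · -- large `x`
      have key : ∀ d ∈ D, ∃ (q : Fin K → ℕ), Pr q = d ∧ Cd h q (l d) ∧
          ((Pr q : ℝ) ≤ x ^ (1 / 2 - δ / 100) ∨ GoodP (δ / 100) (lg x q)) := by
        intro d hd
        obtain ⟨d1, d2, d3, d4, d5, d6, d7, d8⟩ := hDmem d hd
        have hz : 1 < x ^ γ := Real.one_lt_rpow (by linarith) hγ0
        obtain ⟨q, q1, q2, q3, q4, q5⟩ := hdec (x ^ γ) d (l d) hz d3 (by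
          refine (hdx d hd).trans ?_
          rw [← Real.rpow_natCast, ← Real.rpow_mul (by linarith)]
          calc x = x ^ (1 : ℝ) := (Real.rpow_one x).symm
            _ ≤ _ := Real.rpow_le_rpow_of_exponent_le (by linarith) (by
              rw [div_le_iff₀ hγ0] at hN1
              linarith)) d8
        refine ⟨q, q1, q3, ?_⟩
        rcases d4 with d4 | d4
        · left
          rw [q1]
          exact d4.trans (Real.rpow_le_rpow_of_exponent_le (by linarith) (by linarith))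
        · right
          exact goodP_of (by linarith) hδ hγ0 hγ1 q q2 (by rw [q1]; exact d3) q4 q5
            (by rw [q1]; exact d4)
      choose! q hqe using key
      have h1 := hx0 x ((le_max_left _ _).trans hxx)
            (fun q => y (Pr q)) (fun q => l (Pr q)) (D.image q) (by
              intro q' hq'
              obtain ⟨d, hd, rfl⟩ := Finset.mem_image.1 hq'
              obtain ⟨q1, q2, q3⟩ := hqe d hd
              obtain ⟨d1, d2, d3, d4, d5, d6, d7, d8⟩ := hDmem d hd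
              refine ⟨by rw [q1]; exact d3, by rw [q1]; exact d2, by rw [q1]; exact d5,
                by rw [q1]; exact d6, by rw [q1]; exact d7, by rw [q1]; exact q2, q3⟩)
      rw [Finset.sum_image] at h1
      · refine le_trans (Finset.sum_le_sum fun d hd => ?_) (h1.trans ?_)
        · obtain ⟨q1, -⟩ := hqe d hd
          obtain ⟨d1, -⟩ := hDmem d hd
          rw [q1]
          exact mul_le_mul_of_nonneg_right (Pool.Agent.Y246.LD.tau_ge (by omega) κ) (abs_nonneg _)
        · have : 0 ≤ B0 * (Real.log x1) ^ U := by positivity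
          have h2 := mul_nonneg this hxU.le
          linarith
      · intro a ha b hb hab
        have ha' := (hqe a ha).1
        have hb' := (hqe b hb).1
        rw [← ha', ← hb']
        exact congrArg Pr hab
    · -- small `x`
      push Not at hxx
      have h1 : ∑ d ∈ D, (κ : ℝ) ^ d.primeFactors.card * |E (y d) d (l d)| ≤
          ∑ _d ∈ D, ((κ : ℝ) + 1) ^ ⌊x1⌋₊ * (3 * x1) := by
        refine Finset.sum_le_sum fun d hd => ?_
        obtain ⟨d1, d2, d3, d4, d5, d6, d7, d8⟩ := hDmem d hd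
        refine mul_le_mul ?_ ((Pool.Agent.Y246.LD.E_bd d5 d1).trans (by linarith)) (abs_nonneg _)
          (by positivity)
        have h2 : d.primeFactors.card ≤ ⌊x1⌋₊ := by
          have h3 : d.primeFactors.card ≤ d := by
            have h4 : d.primeFactors ⊆ Icc 1 d := fun p hp => Finset.mem_Icc.2
              ⟨(Nat.prime_of_mem_primeFactors hp).one_le, Nat.le_of_mem_primeFactors hp⟩
            have h5 := Finset.card_le_card h4
            rwa [Nat.card_Icc, Nat.add_sub_cancel] at h5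
          refine h3.trans (Nat.le_floor ?_)
          have := hdx d hd
          linarith
        calc (κ : ℝ) ^ d.primeFactors.card ≤ ((κ : ℝ) + 1) ^ d.primeFactors.card :=
              pow_le_pow_left₀ (Nat.cast_nonneg _) (by linarith) _
          _ ≤ _ := pow_le_pow_right₀ (by linarith [(Nat.cast_nonneg κ : (0 : ℝ) ≤ κ)]) h2
      have h2 : (D.card : ℝ) ≤ x1 := by
        have h3 : D ⊆ Icc 1 ⌊x⌋₊ := fun d hd => Finset.mem_Icc.2
          ⟨(hDmem d hd).1, Nat.le_floor (hdx d hd)⟩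
        have h4 := Finset.card_le_card h3
        rw [Nat.card_Icc, Nat.add_sub_cancel] at h4
        have h5 : (⌊x⌋₊ : ℝ) ≤ x := Nat.floor_le (by linarith)
        have h6 : (D.card : ℝ) ≤ ⌊x⌋₊ := by exact_mod_cast h4
        linarith
      rw [Finset.sum_const, nsmul_eq_mul] at h1
      have h3 : (D.card : ℝ) * (((κ : ℝ) + 1) ^ ⌊x1⌋₊ * (3 * x1)) ≤ B0 :=
        mul_le_mul_of_nonneg_right h2 (by positivity)
      have h4 : (1 : ℝ) ≤ (Real.log x1) ^ U * (x / (Real.log x) ^ U) := by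
        have h5 : (Real.log x) ^ U ≤ (Real.log x1) ^ U :=
          pow_le_pow_left₀ hlx.le (Real.log_le_log (by linarith) hxx.le) _
        rw [mul_div_assoc', le_div_iff₀ (by positivity), one_mul]
        calc (Real.log x) ^ U ≤ (Real.log x1) ^ U := h5
          _ = (Real.log x1) ^ U * 1 := (mul_one _).symm
          _ ≤ (Real.log x1) ^ U * x := mul_le_mul_of_nonneg_left (by linarith) (by positivity)
      have h5 : B0 * 1 ≤ B0 * ((Real.log x1) ^ U * (x / (Real.log x) ^ U)) :=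
        mul_le_mul_of_nonneg_left h4 hB00
      calc _ ≤ B0 := h1.trans h3
        _ ≤ _ := by linarith
  rw [hD] at hgoal
  exact le_trans (le_of_eq (Finset.sum_congr (by congr) fun _ _ => rfl)) hgoal

end Pool.Agent.Y826.LM
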