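import Mathlib
import Pool.Agent.Y826.LD.Defs

/-! Project Y826/LM (helper826): level of distribution of the primes beyond `1/2` for fixed residue classes, for
all the moduli which factor well: statements. -/

open Finset Filter

namespace Pool.Agent.Y826.LM

open Pool.Agent.Y826.Z (Pr tau GoodT)
open Pool.Agent.Y826.ZL (Cd)
open Pool.Agent.Y826.ZG (rd Hyp Cls)
open Pool.Agent.Y826.LD (psi E)

/-- the inequalities between the sizes of the five factors -/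
def Ineq (δ ν : ℝ) (y : Fin 5 → ℝ) : Prop :=
  ∀ η : ℝ, η = max 0 (y 0 + y 1 + 2 * y 2 + 2 * y 3 + 2 * y 4 - (1 - ν)) →
    y 0 + y 1 ≤ ν - δ ∧ y 0 + y 1 + 2 * y 2 + 2 * y 3 ≤ 1 - ν - δ ∧ y 0 + 2 * y 2 + 4 * y 4 + 4 * η ≤ ν - δ ∧
      y 1 + 2 * y 3 + 8 * η ≤ 2 * ν - δ ∧ 8 * η + δ ≤ y 1 + 2 * y 3

/-- a vector of sizes which can be distributed suitably over five groups, for each `ν` (this is the inner part of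
`Z.GoodT`, see `goodP_of_goodT`) -/
def GoodP {K : ℕ} (δ : ℝ) (x : Fin K → ℝ) : Prop :=
  ∀ ν : ℝ, 1 / 3 - δ ≤ ν → ν ≤ 1 / 2 + δ → ∃ g : Fin K → Fin 5,
    ∀ y : Fin 5 → ℝ, (∀ i, y i = ∑ j ∈ univ.filter (fun j => g j = i), x j) → Ineq δ ν y

theorem goodP_of_goodT {K : ℕ} {δ : ℝ} {t : Fin K → ℝ} (h : GoodT δ t) (x : Fin K → ℝ)
    (h1 : ∀ j, -δ ≤ x j ∧ x j ≤ t j) (h2 : 1 / 2 - δ ≤ ∑ j, x j) : GoodP δ x := h x h1 h2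

/-- the sizes of the members of a tuple, in the logarithmic scale -/
noncomputable def lg {K : ℕ} (X : ℝ) (q : Fin K → ℕ) : Fin K → ℝ := fun j => Real.log (q j) / Real.log X

/-- the smooth weight, any set of tuples; compare `ZG.S_ZZ` -/
def S_ZZM : Prop := ∀ (K : ℕ) (h : Fin K → ℤ × ℤ) (W b : ℕ), Hyp h W b → ∀ δ : ℝ, 0 < δ →
  ∀ bq, Cls h W b bq → ∀ A C : ℕ,
  ∀ᶠ X : ℝ in atTop, ∀ S : Finset (Fin K → ℕ),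
    (∀ q ∈ S, Squarefree (rd W * Pr q) ∧ (Pr q : ℝ) ≤ X ^ (27 / 50 : ℝ) ∧
      ((Pr q : ℝ) ≤ X ^ (1 / 2 - δ) ∨ GoodP δ (lg X q))) →
    ∑ q ∈ S, tau (Pr q) ^ C * |H378R2.EPhi X (W * Pr q) (bq q)| ≤ X / (Real.log X) ^ A

/-- sharp cut-offs, the cut-off may depend on the modulus; compare `LD.S_SHARP` -/
def S_SHM : Prop := ∀ (K : ℕ) (h : Fin K → ℤ × ℤ) (W b : ℕ), Hyp h W b → ∀ δ : ℝ, 0 < δ →
  ∀ bq, Cls h W b bq → ∀ A C : ℕ,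
  ∀ᶠ X : ℝ in atTop, ∀ (Y : (Fin K → ℕ) → ℝ) (S : Finset (Fin K → ℕ)),
    (∀ q ∈ S, Squarefree (rd W * Pr q) ∧ (Pr q : ℝ) ≤ X ^ (53 / 100 : ℝ) ∧ Y q ≤ X ∧
      ((Pr q : ℝ) ≤ X ^ (1 / 2 - δ) ∨ GoodP δ (lg X q))) →
    ∑ q ∈ S, tau (Pr q) ^ C * |psi (Y q) (W * Pr q) (bq q) - psi (Y q) 1 0 / (Nat.totient (W * Pr q) : ℝ)| ≤
        X / (Real.log X) ^ A

/-- primes; no modulus `W`; compare `LD.S_PI` -/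
def S_PIM : Prop := ∀ (K : ℕ) (h : Fin K → ℤ × ℤ),
  (∀ j, (h j).1 ≠ 0 ∧ (h j).2 ≠ 0 ∧ IsCoprime (h j).1 (h j).2) → ∀ δ : ℝ, 0 < δ → ∀ A C : ℕ,
  ∀ᶠ X : ℝ in atTop, ∀ (Y : (Fin K → ℕ) → ℝ) (l : (Fin K → ℕ) → ℕ) (S : Finset (Fin K → ℕ)),
    (∀ q ∈ S, Squarefree (Pr q) ∧ (Pr q : ℝ) ≤ X ^ (53 / 100 : ℝ) ∧ 2 ≤ Y q ∧ Y q ≤ X ∧
      (l q).Coprime (Pr q) ∧ Cd h q (l q) ∧ ((Pr q : ℝ) ≤ X ^ (1 / 2 - δ) ∨ GoodP δ (lg X q))) →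
    ∑ q ∈ S, tau (Pr q) ^ C * |E (Y q) (Pr q) (l q)| ≤ X / (Real.log X) ^ A

/-- a modulus which factors well: for each `ν` there is a factorisation `d = e 0 * ... * e 4` with the
inequalities `Ineq` between the sizes of the factors -/
def GoodD (δ x : ℝ) (d : ℕ) : Prop :=
  ∀ ν : ℝ, 1 / 3 ≤ ν → ν ≤ 1 / 2 → ∃ e : Fin 5 → ℕ, ∏ i, e i = d ∧
    ∀ y : Fin 5 → ℝ, (∀ i, y i = Real.log (e i) / Real.log x) → Ineq δ ν y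

open Classical in
/-- all the squarefree moduli `d ≤ x ^ (53/100)` which are `≤ x ^ (1/2 - δ)` or factor well; the maximum over
the residue classes `l` with `d ∣ ∏ (a l + b)` and the maximum over the cut-offs inside the sum -/
def S_MAIN : Prop := ∀ H : Finset (ℤ × ℤ), (∀ h ∈ H, h.1 ≠ 0 ∧ h.2 ≠ 0 ∧ IsCoprime h.1 h.2) →
  ∀ δ : ℝ, 0 < δ → ∀ κ U : ℕ, ∃ C : ℝ, ∀ x : ℝ, 3 ≤ x → ∀ (y : ℕ → ℝ) (l : ℕ → ℕ),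
    ∑ d ∈ (Icc 1 ⌊x ^ (53 / 100 : ℝ)⌋₊).filter (fun d : ℕ => Squarefree d ∧
        ((d : ℝ) ≤ x ^ (1 / 2 - δ) ∨ GoodD δ x d) ∧
        2 ≤ y d ∧ y d ≤ x ∧ (l d).Coprime d ∧ (d : ℤ) ∣ ∏ h ∈ H, (h.1 * (l d : ℤ) + h.2)),
      (κ : ℝ) ^ d.primeFactors.card * |E (y d) d (l d)| ≤ C * (x / (Real.log x) ^ U)

end Pool.Agent.Y826.LM
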