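import Mathlib
import Pool.Agent.Y826.LD.Pi
import Pool.Agent.Y826.LD.Sharp2
import Pool.Agent.Y826.LM.Defs

/-! Project Y826/LM, task LMC (helper968): from `psi` to the primes, no modulus `W`, any set of tuples. -/

set_option autoImplicit false

open Finset Filter

namespace Pool.Agent.Y826.LM

open Pool.Agent.Y826.Z (Pr tau GoodT)
open Pool.Agent.Y826.ZL (Cd)
open Pool.Agent.Y826.ZG (rd Hyp Cls)
open Pool.Agent.Y826.ZG.Y950 (tau_nonneg one_le_tau tau_prod_le tau_mono_dvd tuples_le)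
open Pool.Agent.Y826.LD (psi E primesAP)
open Pool.Agent.Y826.LD.PA (npp npp_nonneg E_le)
open Pool.Agent.Y826.LD.PB (ev_tau npp_all pnt)
open Pool.Agent.Y826.LD.PD
open Pool.Agent.Y826.LD

/-- the weighted number of tuples -/
lemma box_tauM {K : ℕ} (W C : ℕ) : ∀ᶠ X : ℝ in atTop, ∀ S : Finset (Fin K → ℕ),
    (∀ q ∈ S, Squarefree (rd W * Pr q) ∧ (Pr q : ℝ) ≤ X ^ (53 / 100 : ℝ)) →
      ∑ q ∈ S, tau (Pr q) ^ C ≤ X ^ (53 / 100 + 1 / 100 : ℝ) := by
  have hl := (isLittleO_log_rpow_rpow_atTop (r := ((2 ^ (K + C + 1) : ℕ) : ℝ)) (s := 1 / 100) (by norm_num)).def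
    (c := 1 / 2 ^ (2 ^ (K + C + 1))) (by positivity)
  filter_upwards [hl, eventually_ge_atTop 3] with X hl hX S hS
  have hX0 : 0 < X := by linarith
  have hX1 : 1 ≤ X := by linarith
  have hL1 : 1 ≤ Real.log X := by
    rw [Real.le_log_iff_exp_le hX0]
    linarith [Real.exp_one_lt_d9]
  have h1 := Sh.T2 W C X hX S (fun q hq => ⟨(hS q hq).1, (hS q hq).2.trans (by
    calc X ^ (53 / 100 : ℝ) ≤ X ^ (1 : ℝ) := Real.rpow_le_rpow_of_exponent_le hX1 (by norm_num)
      _ = X := Real.rpow_one X)⟩) (X ^ (53 / 100 : ℝ)) (fun q hq => (hS q hq).2) (by positivity)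
  refine h1.trans ?_
  rw [Real.rpow_add hX0]
  apply mul_le_mul_of_nonneg_left _ (by positivity)
  rw [Real.rpow_natCast, Real.norm_of_nonneg (by positivity), Real.norm_of_nonneg (by positivity)] at hl
  calc (1 + Real.log X) ^ (2 ^ (K + C + 1)) ≤ (2 * Real.log X) ^ (2 ^ (K + C + 1)) :=
        pow_le_pow_left₀ (by linarith) (by linarith) _
    _ = 2 ^ (2 ^ (K + C + 1)) * Real.log X ^ (2 ^ (K + C + 1)) := by rw [mul_pow]
    _ ≤ 2 ^ (2 ^ (K + C + 1)) * (1 / 2 ^ (2 ^ (K + C + 1)) * X ^ (1 / 100 : ℝ)) :=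
        mul_le_mul_of_nonneg_left hl (by positivity)
    _ = X ^ (1 / 100 : ℝ) := by field_simp

/-- the prime powers with exponent at least two in the classes of the tuples -/
lemma npp_sumM {K : ℕ} (h : Fin K → ℤ × ℤ) (hh : ∀ j, (h j).1 ≠ 0) (W b : ℕ)
    (bq : (Fin K → ℕ) → ℕ) (hbq : Cls h W b bq) (C : ℕ) :
    ∀ᶠ X : ℝ in atTop, ∀ S : Finset (Fin K → ℕ),
      (∀ q ∈ S, Squarefree (rd W * Pr q) ∧ (Pr q : ℝ) ≤ X ^ (53 / 100 : ℝ)) →
      ∑ q ∈ S, tau (Pr q) ^ C * npp ⌊X⌋₊ (W * Pr q) (bq q) ≤ X ^ (9 / 10 : ℝ) := by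
  classical
  obtain ⟨D, hD, hnpp⟩ := npp_all
  set H : ℕ := ∑ j, ((h j).1.natAbs + (h j).2.natAbs) with hH
  have hlog := (isLittleO_log_rpow_atTop (show (0 : ℝ) < 1 / 100 by norm_num)).bound
    (show (0 : ℝ) < 1 by norm_num)
  have hbig := (tendsto_rpow_atTop (show (0 : ℝ) < 1 / 100 by norm_num)).eventually_ge_atTop (D + K + 1)
  have hε1 : (0 : ℝ) < 1 / (100 * (K + 1)) := by positivity
  filter_upwards [ev_tau (C + 1) (1 / (100 * (K + 1))) hε1, box_tauM (K := K) W C, hlog,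
    hbig, eventually_ge_atTop ((H : ℝ) + 2)] with X h1 h2 h3 h4 hXH S hS
  have hH0 : (0 : ℝ) ≤ H := Nat.cast_nonneg _
  have hX2 : 2 ≤ X := by linarith
  have hX0 : 0 < X := by linarith
  have hX1 : 1 ≤ X := by linarith
  set N := ⌊X⌋₊ with hN
  have hNX : (N : ℝ) ≤ X := Nat.floor_le hX0.le
  set v : Fin K → ℕ → ℤ := fun j n => (h j).1 * (n : ℤ) + (h j).2 with hv
  set B1 : ℝ := X ^ (53 / 100 + 1 / 100 : ℝ) with hB1
  have hB10 : 0 ≤ B1 := by positivity
  have hlog0 : 0 ≤ Real.log X := Real.log_nonneg hX1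
  have h3' : Real.log X ≤ X ^ (1 / 100 : ℝ) := by
    rw [Real.norm_of_nonneg hlog0, Real.norm_of_nonneg (by positivity), one_mul] at h3
    exact h3
  -- the inner sum
  have hin : ∀ n ∈ Icc 1 N, ∑ q ∈ S.filter (fun q => n ≡ bq q [MOD (W * Pr q)]), tau (Pr q) ^ C ≤
      X ^ (1 / 100 : ℝ) + ∑ j, (if v j n = 0 then B1 else 0) := by
    intro n hn
    rw [mem_Icc] at hn
    have hnn : ∀ j, 0 ≤ (if v j n = 0 then B1 else 0) := by
      intro j
      split_ifs
      · exact hB10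
      · exact le_rfl
    by_cases hz : ∀ j, v j n ≠ 0
    · have a1 := tuples_le h n hz (S.filter (fun q => n ≡ bq q [MOD (W * Pr q)])) (by
        intro q hq
        rw [mem_filter] at hq
        exact ((hbq q (hS q hq.1).1 n).1 hq.2).2) C
      have a2 : ∏ j, tau (v j n).natAbs ^ (C + 1) ≤ ∏ _j : Fin K, X ^ (1 / (100 * (K + 1)) : ℝ) := by
        refine Finset.prod_le_prod (fun j _ => pow_nonneg (tau_nonneg _) _) fun j _ => ?_
        refine h1 _ (by simpa using hz j) ?_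
        have b1 : (v j n).natAbs ≤ H * (N + 1) := by
          have c1 : (v j n).natAbs ≤ (h j).1.natAbs * n + (h j).2.natAbs := by
            rw [hv]
            refine (Int.natAbs_add_le _ _).trans ?_
            rw [Int.natAbs_mul, Int.natAbs_natCast]
          have c2 : (h j).1.natAbs + (h j).2.natAbs ≤ H := by
            rw [hH]
            exact Finset.single_le_sum (f := fun j => (h j).1.natAbs + (h j).2.natAbs)
              (fun _ _ => Nat.zero_le _) (mem_univ j)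
          calc (v j n).natAbs ≤ (h j).1.natAbs * n + (h j).2.natAbs := c1
            _ ≤ (h j).1.natAbs * (N + 1) + (h j).2.natAbs * (N + 1) := by
                apply add_le_add
                · exact Nat.mul_le_mul_left _ (by omega)
                · exact Nat.le_mul_of_pos_right _ (by omega)
            _ = ((h j).1.natAbs + (h j).2.natAbs) * (N + 1) := by ring
            _ ≤ H * (N + 1) := Nat.mul_le_mul_right _ c2
        have b2 : ((v j n).natAbs : ℝ) ≤ (H : ℝ) * (N + 1) := by exact_mod_cast b1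
        calc ((v j n).natAbs : ℝ) ≤ (H : ℝ) * (N + 1) := b2
          _ ≤ X * (X + 1) := by
              apply mul_le_mul (by linarith) (by linarith) (by positivity) hX0.le
          _ ≤ X * (X * X) := by
              apply mul_le_mul_of_nonneg_left _ hX0.le
              nlinarith
          _ = X ^ 3 := by ring
          _ ≤ X ^ 10 := pow_le_pow_right₀ hX1 (by norm_num)
      have a3 : ∏ _j : Fin K, X ^ (1 / (100 * (K + 1)) : ℝ) ≤ X ^ (1 / 100 : ℝ) := by
        rw [prod_const, card_univ, Fintype.card_fin, ← Real.rpow_natCast, ← Real.rpow_mul hX0.le]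
        apply Real.rpow_le_rpow_of_exponent_le hX1
        have hK : (0 : ℝ) ≤ K := Nat.cast_nonneg _
        rw [div_mul_eq_mul_div, one_mul, div_le_div_iff₀ (by positivity) (by norm_num)]
        linarith
      have a4 : 0 ≤ ∑ j, (if v j n = 0 then B1 else 0) := sum_nonneg fun j _ => hnn j
      calc _ ≤ ∏ j, tau (v j n).natAbs ^ (C + 1) := a1
        _ ≤ X ^ (1 / 100 : ℝ) := a2.trans a3
        _ ≤ _ := by linarith
    · push Not at hz
      obtain ⟨j, hj⟩ := hz
      have a1 : ∑ q ∈ S.filter (fun q => n ≡ bq q [MOD (W * Pr q)]), tau (Pr q) ^ C ≤ B1 :=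
        h2 _ (fun q hq => hS q (mem_filter.1 hq).1)
      have a2 : B1 ≤ ∑ j, (if v j n = 0 then B1 else 0) := by
        refine le_trans ?_ (Finset.single_le_sum (f := fun j => if v j n = 0 then B1 else 0)
          (fun j _ => hnn j) (mem_univ j))
        simp only [hj, if_true]
        exact le_rfl
      have a3 : 0 ≤ X ^ (1 / 100 : ℝ) := by positivity
      linarith
  have hcard : ∀ j, (((Icc 1 N).filter (fun n => v j n = 0)).card : ℝ) ≤ 1 := by
    intro j
    have : ((Icc 1 N).filter (fun n => v j n = 0)).card ≤ 1 := by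
      rw [Finset.card_le_one]
      intro x hx y hy
      rw [mem_filter] at hx hy
      have e1 : (h j).1 * (x : ℤ) = (h j).1 * (y : ℤ) := by
        have := hx.2
        have := hy.2
        simp only [hv] at *
        linarith
      have := mul_left_cancel₀ (hh j) e1
      exact_mod_cast this
    exact_mod_cast this
  have hlogN : ∀ n ∈ Icc 1 N, ArithmeticFunction.vonMangoldt n ≤ X ^ (1 / 100 : ℝ) := by
    intro n hn
    rw [mem_Icc] at hn
    refine le_trans ?_ h3'
    refine ArithmeticFunction.vonMangoldt_le_log.trans ?_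
    apply Real.log_le_log (by exact_mod_cast hn.1)
    exact le_trans (by exact_mod_cast hn.2) hNX
  calc ∑ q ∈ S, tau (Pr q) ^ C * npp N (W * Pr q) (bq q)
      = ∑ n ∈ (Icc 1 N).filter (fun n => ¬ n.Prime), ArithmeticFunction.vonMangoldt n *
          ∑ q ∈ S.filter (fun q => n ≡ bq q [MOD (W * Pr q)]), tau (Pr q) ^ C := by
        unfold npp
        have e1 : ∀ q ∈ S, tau (Pr q) ^ C * ∑ n ∈ (Icc 1 N).filter
            (fun n => ¬ n.Prime ∧ n ≡ bq q [MOD (W * Pr q)]), ArithmeticFunction.vonMangoldt n =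
            ∑ n ∈ (Icc 1 N).filter (fun n => ¬ n.Prime), ArithmeticFunction.vonMangoldt n *
              (if n ≡ bq q [MOD (W * Pr q)] then tau (Pr q) ^ C else 0) := by
          intro q _
          rw [← filter_filter, sum_filter, mul_sum]
          refine sum_congr rfl fun n _ => ?_
          split_ifs <;> ring
        rw [sum_congr rfl e1, sum_comm]
        refine sum_congr rfl fun n _ => ?_
        rw [← mul_sum, sum_filter]
    _ ≤ ∑ n ∈ (Icc 1 N).filter (fun n => ¬ n.Prime), ArithmeticFunction.vonMangoldt n *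
          (X ^ (1 / 100 : ℝ) + ∑ j, (if v j n = 0 then B1 else 0)) := by
        refine sum_le_sum fun n hn => ?_
        exact mul_le_mul_of_nonneg_left (hin n (mem_filter.1 hn).1) ArithmeticFunction.vonMangoldt_nonneg
    _ = X ^ (1 / 100 : ℝ) * npp N 1 0 + ∑ j, ∑ n ∈ (Icc 1 N).filter (fun n => ¬ n.Prime),
          (if v j n = 0 then ArithmeticFunction.vonMangoldt n * B1 else 0) := by
        have e1 : npp N 1 0 = ∑ n ∈ (Icc 1 N).filter (fun n => ¬ n.Prime), ArithmeticFunction.vonMangoldt n := by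
          unfold npp
          congr 1
          ext k
          simp [Nat.modEq_one]
        rw [e1, mul_sum, sum_comm, ← sum_add_distrib]
        refine sum_congr rfl fun n _ => ?_
        rw [mul_add, mul_sum, mul_comm (ArithmeticFunction.vonMangoldt n)]
        congr 1
        refine sum_congr rfl fun j _ => ?_
        split_ifs <;> ring
    _ ≤ X ^ (1 / 100 : ℝ) * (D * X ^ (1 / 2 : ℝ)) + ∑ _j : Fin K, X ^ (1 / 100 : ℝ) * B1 := by
        apply add_le_add
        · apply mul_le_mul_of_nonneg_left _ (by positivity)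
          refine (hnpp N).trans ?_
          apply mul_le_mul_of_nonneg_left _ hD.le
          rw [Real.sqrt_eq_rpow]
          exact Real.rpow_le_rpow (Nat.cast_nonneg _) hNX (by norm_num)
        · refine sum_le_sum fun j _ => ?_
          calc ∑ n ∈ (Icc 1 N).filter (fun n => ¬ n.Prime),
                (if v j n = 0 then ArithmeticFunction.vonMangoldt n * B1 else 0)
              ≤ ∑ n ∈ Icc 1 N, (if v j n = 0 then ArithmeticFunction.vonMangoldt n * B1 else 0) := by
                apply sum_le_sum_of_subset_of_nonneg (filter_subset _ _)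
                intro n _ _
                split_ifs
                · exact mul_nonneg ArithmeticFunction.vonMangoldt_nonneg hB10
                · exact le_rfl
            _ = ∑ n ∈ (Icc 1 N).filter (fun n => v j n = 0), ArithmeticFunction.vonMangoldt n * B1 := by
                rw [sum_filter]
            _ ≤ ∑ n ∈ (Icc 1 N).filter (fun n => v j n = 0), X ^ (1 / 100 : ℝ) * B1 := by
                refine sum_le_sum fun n hn => ?_
                exact mul_le_mul_of_nonneg_right (hlogN n (mem_filter.1 hn).1) hB10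
            _ = (((Icc 1 N).filter (fun n => v j n = 0)).card : ℝ) * (X ^ (1 / 100 : ℝ) * B1) := by
                rw [sum_const, nsmul_eq_mul]
            _ ≤ 1 * (X ^ (1 / 100 : ℝ) * B1) := mul_le_mul_of_nonneg_right (hcard j) (by positivity)
            _ = _ := one_mul _
    _ ≤ (D + K + 1) * X ^ (6 / 10 : ℝ) := by
        rw [sum_const, card_univ, Fintype.card_fin, nsmul_eq_mul, hB1, ← Real.rpow_add hX0]
        have e1 : X ^ (1 / 100 : ℝ) * (D * X ^ (1 / 2 : ℝ)) = D * X ^ (1 / 100 + 1 / 2 : ℝ) := by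
          rw [Real.rpow_add hX0]; ring
        rw [e1]
        have f1 : X ^ (1 / 100 + 1 / 2 : ℝ) ≤ X ^ (6 / 10 : ℝ) :=
          Real.rpow_le_rpow_of_exponent_le hX1 (by norm_num)
        have f2 : X ^ (1 / 100 + (53 / 100 + 1 / 100) : ℝ) ≤ X ^ (6 / 10 : ℝ) :=
          Real.rpow_le_rpow_of_exponent_le hX1 (by norm_num)
        have f3 : 0 ≤ X ^ (6 / 10 : ℝ) := by positivity
        have g1 := mul_le_mul_of_nonneg_left f1 hD.le
        have g2 := mul_le_mul_of_nonneg_left f2 (Nat.cast_nonneg (α := ℝ) K)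
        linarith
    _ ≤ X ^ (1 / 100 : ℝ) * X ^ (6 / 10 : ℝ) := mul_le_mul_of_nonneg_right h4 (by positivity)
    _ ≤ X ^ (9 / 10 : ℝ) := by
        rw [← Real.rpow_add hX0]
        exact Real.rpow_le_rpow_of_exponent_le hX1 (by norm_num)

theorem spiWM (hS : S_SHM) (K : ℕ) (h : Fin K → ℤ × ℤ) (W b : ℕ) (hyp : Hyp h W b)
    (hh : ∀ j, (h j).1 ≠ 0) (δ : ℝ) (hδ : 0 < δ) (bq : (Fin K → ℕ) → ℕ) (hbq : Cls h W b bq) (A C : ℕ) :
    ∀ᶠ X : ℝ in atTop, ∀ (Y : (Fin K → ℕ) → ℝ) (S : Finset (Fin K → ℕ)),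
      (∀ q ∈ S, Squarefree (rd W * Pr q) ∧ (Pr q : ℝ) ≤ X ^ (53 / 100 : ℝ) ∧ 2 ≤ Y q ∧ Y q ≤ X ∧
        ((Pr q : ℝ) ≤ X ^ (1 / 2 - δ) ∨ GoodP δ (lg X q))) →
      ∑ q ∈ S, tau (Pr q) ^ C * |E (Y q) (W * Pr q) (bq q)| ≤ X / (Real.log X) ^ A := by
  set B : ℕ := 2 ^ (K + C + 1) with hB
  obtain ⟨D, hD, hnpp⟩ := npp_all
  obtain ⟨P0, hP0, hpnt⟩ := pnt (A + B + 1)
  have h1 := hS K h W b hyp δ hδ bq hbq (A + 1) C
  have h2 := npp_sumM h hh W b bq hbq C
  have hl1 := Real.tendsto_log_atTop.eventually_ge_atTop (8 + 4 * P0 * 2 ^ B)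
  have e1 := Pool.Agent.H442R2.EHI.FinalOf.ev A (1 / 10) (by norm_num) 8 (by norm_num)
  have e2 := Pool.Agent.H442R2.EHI.FinalOf.ev (A + B) (1 / 2) (by norm_num) (4 * (2 * D + 4) * 2 ^ B)
    (by positivity)
  filter_upwards [h1, h2, hl1, e1, e2, eventually_ge_atTop 4] with X h1 h2 hl1 e1 e2 hX4 Y S hSh
  have hX0 : 0 < X := by linarith
  have hX1 : 1 ≤ X := by linarith
  have hPB : 0 ≤ 4 * P0 * 2 ^ B := by positivity
  have hL : 8 ≤ Real.log X := by linarith
  have hL0 : 0 < Real.log X := by linarith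
  set L := Real.log X with hLdef
  set N := ⌊X⌋₊ with hN
  have hNX : (N : ℝ) ≤ X := Nat.floor_le hX0.le
  -- the best cut-off
  have hmax : ∀ q : Fin K → ℕ, ∃ m : ℕ, m ≤ N ∧ ∀ m' : ℕ, m' ≤ N →
      |psi m' (W * Pr q) (bq q) - psi m' 1 0 / (Nat.totient (W * Pr q) : ℝ)| ≤
      |psi m (W * Pr q) (bq q) - psi m 1 0 / (Nat.totient (W * Pr q) : ℝ)| := by
    intro q
    obtain ⟨m, hm, hm2⟩ := Finset.exists_max_image (range (N + 1))
      (fun m : ℕ => |psi m (W * Pr q) (bq q) - psi m 1 0 / (Nat.totient (W * Pr q) : ℝ)|)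
      ⟨0, by simp⟩
    refine ⟨m, by rw [mem_range] at hm; omega, fun m' hm' => hm2 m' (by rw [mem_range]; omega)⟩
  choose ms hms1 hms2 using hmax
  have h3 := h1 (fun q => (ms q : ℝ)) S (fun q hq => ⟨(hSh q hq).1, (hSh q hq).2.1,
    le_trans (by exact_mod_cast hms1 q) hNX, (hSh q hq).2.2.2.2⟩)
  have h4 := h2 S (fun q hq => ⟨(hSh q hq).1, (hSh q hq).2.1⟩)
  have h5 := Sh.T1 W C hyp.wpos X (by linarith) S (fun q hq => ⟨(hSh q hq).1, (hSh q hq).2.1.trans (by
    calc X ^ (53 / 100 : ℝ) ≤ X ^ (1 : ℝ) := Real.rpow_le_rpow_of_exponent_le hX1 (by norm_num)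
      _ = X := Real.rpow_one X)⟩)
  have hlog1 : (1 + L) ^ B ≤ 2 ^ B * L ^ B := by
    rw [← mul_pow]
    exact pow_le_pow_left₀ (by linarith) (by linarith) _
  have hnN : npp N 1 0 ≤ D * √X := (hnpp N).trans (by
    apply mul_le_mul_of_nonneg_left _ hD.le
    exact Real.sqrt_le_sqrt hNX)
  set P : ℝ := P0 * (X / L ^ (A + B + 1)) with hP
  have hP' : 0 ≤ P := by positivity
  have hnn := npp_nonneg N 1 0
  have hterm : ∀ q ∈ S, tau (Pr q) ^ C * |E (Y q) (W * Pr q) (bq q)| ≤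
      2 * (tau (Pr q) ^ C * |psi (ms q) (W * Pr q) (bq q) - psi (ms q) 1 0 / (Nat.totient (W * Pr q) : ℝ)|) +
      2 * (tau (Pr q) ^ C * npp N (W * Pr q) (bq q)) +
      (2 * npp N 1 0 + P + 4) * (tau (Pr q) ^ C * (1 / (Nat.totient (W * Pr q) : ℝ))) := by
    intro q hq
    obtain ⟨_, _, hy2, hyX, _⟩ := hSh q hq
    have a1 := E_le N (Y q) hy2 (Nat.floor_mono hyX) (W * Pr q) (bq q) _ P (hms2 q)
      (fun m hm hmN => hpnt X hX4 m hm hmN)
    have a2 := mul_le_mul_of_nonneg_left a1 (pow_nonneg (tau_nonneg (Pr q)) C)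
    refine a2.trans (le_of_eq ?_)
    ring
  have hsum := sum_le_sum hterm
  rw [sum_add_distrib, sum_add_distrib, ← mul_sum, ← mul_sum, ← mul_sum] at hsum
  refine hsum.trans ?_
  have h3' : ∑ q ∈ S, tau (Pr q) ^ C *
      |psi (ms q) (W * Pr q) (bq q) - psi (ms q) 1 0 / (Nat.totient (W * Pr q) : ℝ)| ≤ X / L ^ (A + 1) := h3
  have hXLA : 0 < X / L ^ A := by positivity
  have b1 : 2 * (X / L ^ (A + 1)) ≤ 1 / 4 * (X / L ^ A) := by
    have : X / L ^ (A + 1) = X / L ^ A / L := by rw [pow_succ, div_div]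
    rw [this, ← mul_div_assoc, div_le_iff₀ hL0]
    nlinarith
  have b2 : 2 * X ^ (9 / 10 : ℝ) ≤ 1 / 4 * (X / L ^ A) := by
    have c1 : X ^ (9 / 10 : ℝ) * X ^ (1 / 10 : ℝ) = X := by
      rw [← Real.rpow_add hX0]; norm_num
    have c2 : 0 < X ^ (9 / 10 : ℝ) := by positivity
    rw [← mul_div_assoc, le_div_iff₀ (by positivity)]
    have c3 := mul_le_mul_of_nonneg_left e1 c2.le
    rw [c1] at c3
    linarith
  have hsX : √X * √X = X := Real.mul_self_sqrt hX0.le
  have hs1 : 1 ≤ √X := by rw [Real.one_le_sqrt]; linarith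
  have b3 : (2 * npp N 1 0 + 4) * (1 + L) ^ B ≤ 1 / 4 * (X / L ^ A) := by
    have c0 : 2 * npp N 1 0 + 4 ≤ (2 * D + 4) * √X := by nlinarith
    have c1 : (2 * npp N 1 0 + 4) * (1 + L) ^ B ≤ ((2 * D + 4) * √X) * (2 ^ B * L ^ B) := by
      apply mul_le_mul c0 hlog1 (by positivity) (by positivity)
    refine c1.trans ?_
    rw [← mul_div_assoc, le_div_iff₀ (by positivity)]
    rw [← Real.sqrt_eq_rpow] at e2
    have c2 := mul_le_mul_of_nonneg_left e2 (Real.sqrt_nonneg X)
    rw [hsX] at c2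
    have c3 : (2 * D + 4) * √X * (2 ^ B * L ^ B) * L ^ A =
        1 / 4 * (√X * (4 * (2 * D + 4) * 2 ^ B * L ^ (A + B))) := by rw [pow_add]; ring
    rw [c3]
    linarith
  have b4 : P * (1 + L) ^ B ≤ 1 / 4 * (X / L ^ A) := by
    have c1 : P * (1 + L) ^ B ≤ P * (2 ^ B * L ^ B) := mul_le_mul_of_nonneg_left hlog1 hP'
    refine c1.trans ?_
    have c2 : P * (2 ^ B * L ^ B) = P0 * 2 ^ B * (X / L ^ A) / L := by
      rw [hP]
      have : L ^ (A + B + 1) = L ^ A * L ^ B * L := by ring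
      rw [this]
      field_simp
    rw [c2, div_le_iff₀ hL0]
    have c3 : 4 * P0 * 2 ^ B ≤ L := by linarith
    nlinarith
  have h5' : (2 * npp N 1 0 + P + 4) * ∑ q ∈ S, tau (Pr q) ^ C * (1 / (Nat.totient (W * Pr q) : ℝ)) ≤
      (2 * npp N 1 0 + 4) * (1 + L) ^ B + P * (1 + L) ^ B := by
    refine (mul_le_mul_of_nonneg_left h5 (by linarith)).trans (le_of_eq ?_)
    ring
  linarith

/-- the pointwise property is stable under small changes -/
lemma goodP_pert {K : ℕ} {δ : ℝ} (hδ : 0 < δ) {x x' : Fin K → ℝ} (hg : GoodP δ x)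
    (hx : ∀ j, |x j - x' j| ≤ δ / (1000 * (K + 1))) : GoodP (δ / 2) x' := by
  intro ν hν1 hν2
  obtain ⟨g, hg⟩ := hg ν (by linarith) (by linarith)
  refine ⟨g, fun y' hy' η' hη' => ?_⟩
  set y : Fin 5 → ℝ := fun i => ∑ j ∈ univ.filter (fun j => g j = i), x j with hy
  have hI := hg y (fun i => rfl) _ rfl
  have hd : ∀ i, |y i - y' i| ≤ δ / 1000 := by
    intro i
    rw [hy' i, hy]
    simp only
    rw [← sum_sub_distrib]
    refine (Finset.abs_sum_le_sum_abs _ _).trans ?_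
    calc ∑ j ∈ univ.filter (fun j => g j = i), |x j - x' j|
        ≤ ∑ j : Fin K, |x j - x' j| :=
          sum_le_sum_of_subset_of_nonneg (filter_subset _ _) fun _ _ _ => abs_nonneg _
      _ ≤ ∑ _j : Fin K, δ / (1000 * (K + 1)) := sum_le_sum fun j _ => hx j
      _ = K * (δ / (1000 * (K + 1))) := by
          rw [sum_const, card_univ, Fintype.card_fin, nsmul_eq_mul]
      _ ≤ δ / 1000 := by
          have hK : (0 : ℝ) ≤ K := Nat.cast_nonneg _
          rw [← mul_div_assoc, div_le_div_iff₀ (by positivity) (by norm_num)]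
          nlinarith
  set η := max 0 (y 0 + y 1 + 2 * y 2 + 2 * y 3 + 2 * y 4 - (1 - ν)) with hη
  have h0 := abs_le.1 (hd 0)
  have h1 := abs_le.1 (hd 1)
  have h2 := abs_le.1 (hd 2)
  have h3 := abs_le.1 (hd 3)
  have h4 := abs_le.1 (hd 4)
  have a1 : η' ≤ η + 8 * (δ / 1000) := by
    rw [hη']
    apply max_le
    · have := le_max_left 0 (y 0 + y 1 + 2 * y 2 + 2 * y 3 + 2 * y 4 - (1 - ν))
      linarith
    · have := le_max_right 0 (y 0 + y 1 + 2 * y 2 + 2 * y 3 + 2 * y 4 - (1 - ν))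
      linarith [h0.1, h1.1, h2.1, h3.1, h4.1]
  obtain ⟨i1, i2, i3, i4, i5⟩ := hI
  refine ⟨by linarith [h0.1, h1.1], by linarith [h0.1, h1.1, h2.1, h3.1], by linarith [h0.1, h2.1, h4.1],
    by linarith [h1.1, h3.1], by linarith [h1.2, h3.2]⟩

end Pool.Agent.Y826.LM
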