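import Mathlib
import Pool.Agent.Y826.LM.PiMB

/-! Project Y826/LM, task LMC (helper968): `S_SHM` implies `S_PIM`. -/

set_option autoImplicit false

open Finset Filter

namespace Pool.Agent.Y826.LM

open Pool.Agent.Y826.Z (Pr tau GoodT)
open Pool.Agent.Y826.ZL (Cd)
open Pool.Agent.Y826.ZG (rd Hyp Cls)
open Pool.Agent.Y826.ZG.Y950 (tau_nonneg one_le_tau tau_prod_le tau_mono_dvd)
open Pool.Agent.Y826.LD (psi E primesAP)
open Pool.Agent.Y826.LD.PD

/-- **Project LM, task LMC.** -/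
theorem pim (hS : S_SHM) : S_PIM := by
  intro K h hh δ hδ A C
  classical
  set M0 := (∏ j, (h j).1 * (h j).2).natAbs with hM0def
  have hM0 : M0 ≠ 0 := by
    rw [hM0def, Int.natAbs_ne_zero, Finset.prod_ne_zero_iff]
    intro j _
    exact mul_ne_zero (hh j).1 (hh j).2.1
  set W := rd M0 with hWdef
  have hW0 : 0 < W := ZG.rd_pos (Nat.pos_of_ne_zero hM0)
  have hWsf : Squarefree W := ZG.rd_sqf (Nat.pos_of_ne_zero hM0)
  have hrW : rd W = W := ZG.rd_eq hWsf
  have hndvd : ∀ p : ℕ, p.Prime → ¬ p ∣ W → ∀ j, ¬ (p : ℤ) ∣ (h j).1 ∧ ¬ (p : ℤ) ∣ (h j).2 := by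
    intro p hp hpW j
    constructor
    · intro hd
      exact hpW ((ZG.prime_dvd_rd hp).2 (prime_prod_dvd h hp ⟨j, Or.inl hd⟩))
    · intro hd
      exact hpW ((ZG.prime_dvd_rd hp).2 (prime_prod_dvd h hp ⟨j, Or.inr hd⟩))
  have hyp : ∀ b : ℕ, b.Coprime W → Hyp h W b := fun b hb =>
    ⟨hW0, hb, fun p hp hpW j => (hndvd p hp hpW j).1, fun p hp hpW j => (hndvd p hp hpW j).2⟩
  have hex : ∀ b : ℕ, ∃ bq : (Fin K → ℕ) → ℕ, Cls h W b bq := by
    intro b
    have key : ∀ q : Fin K → ℕ, ∃ r : ℕ, Squarefree (rd W * Pr q) →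
        ∀ n : ℕ, (n ≡ r [MOD (W * Pr q)] ↔ n ≡ b [MOD W] ∧ Cd h q n) := by
      intro q
      by_cases hq : Squarefree (rd W * Pr q)
      · obtain ⟨c, hc⟩ := ZG.TIa.crt_full h W b (fun p hp hpW j => (hndvd p hp hpW j).1) q hq
        exact ⟨c, fun _ n => (hc n).symm⟩
      · exact ⟨0, fun h => absurd h hq⟩
    choose bq hbq using key
    exact ⟨bq, fun q hq n => hbq q hq n⟩
  choose bq hbq using hex
  set BF := (range W).filter (fun b => b.Coprime W) with hBF
  set Ws := Fintype.piFinset (fun _ : Fin K => W.divisors) with hWs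
  have hev : ∀ᶠ X : ℝ in atTop, ∀ b ∈ BF, ∀ (Y : (Fin K → ℕ) → ℝ) (S : Finset (Fin K → ℕ)),
      (∀ q ∈ S, Squarefree (rd W * Pr q) ∧ (Pr q : ℝ) ≤ X ^ (53 / 100 : ℝ) ∧ 2 ≤ Y q ∧ Y q ≤ X ∧
        ((Pr q : ℝ) ≤ X ^ (1 / 2 - δ / 2) ∨ GoodP (δ / 2) (lg X q))) →
      ∑ q ∈ S, tau (Pr q) ^ C * |E (Y q) (W * Pr q) (bq b q)| ≤ X / (Real.log X) ^ (A + 1) := by
    rw [Filter.eventually_all_finset]
    intro b hb
    exact spiWM hS K h W b (hyp b (mem_filter.1 hb).2) (fun j => (hh j).1) (δ / 2) (by positivity)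
      (bq b) (hbq b) (A + 1) C
  set Cst : ℝ := (Ws.card : ℝ) * (tau W ^ C * ((BF.card : ℝ))) with hCst
  have hCst0 : 0 ≤ Cst := by
    have := tau_nonneg W
    positivity
  have hbt := box_tauM (K := K) 1 C
  have hl1 := Real.tendsto_log_atTop.eventually_ge_atTop (2 * Cst + 1)
  have hl2 := Real.tendsto_log_atTop.eventually_ge_atTop (Real.log W * (1000 * (K + 1)) / δ)
  have hW0' : (0 : ℝ) < W := by exact_mod_cast hW0
  have e1 := Pool.Agent.H442R2.EHI.FinalOf.ev A (1 / 10) (by norm_num) (2 * W) (by positivity)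
  filter_upwards [hev, hbt, hl1, hl2, e1, eventually_ge_atTop 4] with X hev hbt hl1 hl2 e1 hX4 Y l T hTall
  have hX0 : 0 < X := by linarith
  have hX1 : 1 ≤ X := by linarith
  have hL0 : 0 < Real.log X := by linarith
  have hgood : ∀ q ∈ T, ((Pr (qs W q) : ℝ) ≤ X ^ (1 / 2 - δ / 2) ∨ GoodP (δ / 2) (lg X (qs W q))) := by
    intro q hq
    obtain ⟨hsf, _, _, _, _, _, hor⟩ := hTall q hq
    rcases hor with ho | ho
    · left
      have h1 : (Pr (qs W q) : ℝ) ≤ (Pr q : ℝ) := by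
        rw [← Pr_mul W q] at hsf ⊢
        have h2 : Pr (qw W q) ≠ 0 := hsf.of_mul_left.ne_zero
        exact_mod_cast Nat.le_mul_of_pos_left _ (Nat.pos_of_ne_zero h2)
      refine h1.trans (ho.trans ?_)
      exact Real.rpow_le_rpow_of_exponent_le hX1 (by linarith)
    · right
      refine goodP_pert hδ ho fun j => ?_
      have hw0 : 0 < qw W q j := by
        unfold qw
        exact Nat.gcd_pos_of_pos_right _ hW0
      have hq0 : qs W q j ≠ 0 := by
        intro h0
        have h1 := comp_sf hsf j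
        rw [← qw_mul_qs W q j, h0, mul_zero] at h1
        exact not_squarefree_zero h1
      have hlq : Real.log (q j) = Real.log (qw W q j) + Real.log (qs W q j) := by
        rw [← Real.log_mul (by exact_mod_cast hw0.ne') (by exact_mod_cast hq0), ← Nat.cast_mul, qw_mul_qs]
      have hlw : Real.log (qw W q j) ≤ Real.log W := by
        apply Real.log_le_log (by exact_mod_cast hw0)
        exact_mod_cast Nat.le_of_dvd hW0 (Nat.gcd_dvd_right (q j) W)
      have hlw0 : 0 ≤ Real.log (qw W q j) := Real.log_natCast_nonneg _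
      have e : lg X q j - lg X (qs W q) j = Real.log (qw W q j) / Real.log X := by
        unfold lg
        rw [hlq]
        ring
      rw [e, abs_of_nonneg (by positivity), div_le_div_iff₀ hL0 (by positivity)]
      rw [div_le_iff₀ hδ] at hl2
      have hK1 : (0 : ℝ) ≤ 1000 * (K + 1) := by positivity
      nlinarith [mul_le_mul_of_nonneg_right hlw hK1]
  -- the modified sums
  set F : ℕ → (Fin K → ℕ) → (Fin K → ℕ) → ℝ := fun b w q' =>
    tau (Pr q') ^ C * |E (Y (fun j => w j * q' j)) (W * Pr q') (bq b q')| with hF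
  have hF0 : ∀ b w q', 0 ≤ F b w q' := fun b w q' => mul_nonneg (pow_nonneg (tau_nonneg _) _) (abs_nonneg _)
  have hYq : ∀ q : Fin K → ℕ, Y (fun j => qw W q j * qs W q j) = Y q := by
    intro q
    congr 1
    funext j
    exact qw_mul_qs W q j
  have hterm : ∀ q ∈ T, tau (Pr q) ^ C * |E (Y q) (Pr q) (l q)| ≤
      tau W ^ C * ∑ b ∈ BF, F b (qw W q) (qs W q) + W * tau (Pr q) ^ C := by
    intro q hq
    obtain ⟨hsf, hq53, _, _, hlc, hCd, _⟩ := hTall q hq
    obtain ⟨u, hu⟩ := Pr_qw_dvd (W := W) hsf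
    have hPr := Pr_mul W q
    have hv0 : 0 < Pr (qw W q) := Nat.pos_of_dvd_of_pos (Pr_qw_dvd hsf) hW0
    have hu0 : 0 < u := by
      rcases Nat.eq_zero_or_pos u with h0 | h0
      · rw [h0, mul_zero] at hu; omega
      · exact h0
    have hm0 : 0 < Pr (qs W q) := by
      rcases Nat.eq_zero_or_pos (Pr (qs W q)) with h0 | h0
      · rw [h0, mul_zero] at hPr
        rw [← hPr] at hsf
        exact absurd hsf not_squarefree_zero
      · exact h0
    have hvu : (Pr (qw W q)).Coprime u := Nat.coprime_of_squarefree_mul (hu ▸ hWsf)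
    have hWm : W.Coprime (Pr (qs W q)) := (Pr_qs_cop hsf).symm
    have hsfm : Squarefree (Pr (qs W q)) := by
      rw [← hPr] at hsf
      exact hsf.of_mul_right
    have hsfW : Squarefree (rd W * Pr (qs W q)) := by
      rw [hrW, Nat.squarefree_mul_iff]
      exact ⟨hWm, hWsf, hsfm⟩
    have hCd' : Cd h (qs W q) (l q) := by
      intro j
      refine dvd_trans ?_ (hCd j)
      have : qs W q j ∣ q j := ⟨qw W q j, by rw [mul_comm]; exact (qw_mul_qs W q j).symm⟩
      exact_mod_cast this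
    have hcop : ∀ j, IsCoprime (h j).1 (qs W q j : ℤ) := fun j =>
      ZG.TIa.slope_cop _ W _ (fun p hp hpW => (hndvd p hp hpW j).1) (qs_cop hsf j).symm
    have hs := split (Pr (qw W q)) u (Pr (qs W q)) (l q) hv0 hu0 hm0 hvu (by rw [← hu]; exact hWm)
      (by rw [hPr]; exact hlc) (fun b => bq b (qs W q)) (by
        intro b hb n
        rw [← hu]
        rw [hbq b (qs W q) hsfW n, cd_iff hsfm hcop hCd' n]) (Y q)
    rw [← hu, hPr] at hs
    have hs2 : |E (Y q) (Pr q) (l q)| ≤ ∑ b ∈ BF, |E (Y q) (W * Pr (qs W q)) (bq b (qs W q))| + (W : ℝ) := by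
      refine hs.trans ?_
      apply add_le_add_left
      apply sum_le_sum_of_subset_of_nonneg
      · intro b hb
        unfold Bs at hb
        rw [mem_filter] at hb
        rw [hBF, mem_filter]
        exact ⟨hb.1, hb.2.1⟩
      · intro b _ _
        exact abs_nonneg _
    have htau : tau (Pr q) ^ C ≤ tau W ^ C * tau (Pr (qs W q)) ^ C := by
      rw [← mul_pow]
      apply pow_le_pow_left₀ (tau_nonneg _)
      have a1 : tau (Pr q) ≤ tau (Pr (qw W q)) * tau (Pr (qs W q)) := by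
        have := tau_prod_le (Finset.univ : Finset (Fin 2)) ![Pr (qw W q), Pr (qs W q)]
        simp only [Fin.prod_univ_two, Matrix.cons_val_zero, Matrix.cons_val_one] at this
        rw [hPr] at this
        exact this
      refine a1.trans ?_
      apply mul_le_mul_of_nonneg_right _ (tau_nonneg _)
      exact tau_mono_dvd (Pr_qw_dvd hsf) hW0.ne'
    have hnn : 0 ≤ ∑ b ∈ BF, |E (Y q) (W * Pr (qs W q)) (bq b (qs W q))| := sum_nonneg fun _ _ => abs_nonneg _
    calc tau (Pr q) ^ C * |E (Y q) (Pr q) (l q)|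
        ≤ tau (Pr q) ^ C * (∑ b ∈ BF, |E (Y q) (W * Pr (qs W q)) (bq b (qs W q))| + (W : ℝ)) :=
          mul_le_mul_of_nonneg_left hs2 (pow_nonneg (tau_nonneg _) _)
      _ = tau (Pr q) ^ C * ∑ b ∈ BF, |E (Y q) (W * Pr (qs W q)) (bq b (qs W q))| + W * tau (Pr q) ^ C := by ring
      _ ≤ (tau W ^ C * tau (Pr (qs W q)) ^ C) * ∑ b ∈ BF, |E (Y q) (W * Pr (qs W q)) (bq b (qs W q))| +
          W * tau (Pr q) ^ C := by
          have := mul_le_mul_of_nonneg_right htau hnn
          linarith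
      _ = tau W ^ C * ∑ b ∈ BF, F b (qw W q) (qs W q) + W * tau (Pr q) ^ C := by
          rw [hF]
          simp only [hYq]
          rw [mul_assoc, mul_sum]
  have hmaps : ∀ q ∈ T, qw W q ∈ Ws := by
    intro q _
    rw [hWs, Fintype.mem_piFinset]
    intro j
    rw [Nat.mem_divisors]
    exact ⟨Nat.gcd_dvd_right _ _, hW0.ne'⟩
  have hfib : ∀ w ∈ Ws, ∀ b ∈ BF, ∑ q ∈ T.filter (fun q => qw W q = w), F b (qw W q) (qs W q) ≤
      X / (Real.log X) ^ (A + 1) := by
    intro w _ b hb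
    have h1 : ∑ q ∈ T.filter (fun q => qw W q = w), F b (qw W q) (qs W q) =
        ∑ q' ∈ (T.filter (fun q => qw W q = w)).image (qs W), F b w q' := by
      rw [sum_image]
      · refine sum_congr rfl fun q hq => ?_
        rw [(mem_filter.1 hq).2]
      · intro q1 hq1 q2 hq2 he
        have a1 := (mem_filter.1 hq1).2
        have a2 := (mem_filter.1 hq2).2
        funext j
        rw [← qw_mul_qs W q1 j, ← qw_mul_qs W q2 j, a1, a2, he]
    rw [h1]
    refine hev b hb (fun q' => Y (fun j => w j * q' j)) _ ?_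
    intro q' hq'
    rw [mem_image] at hq'
    obtain ⟨q, hq, rfl⟩ := hq'
    obtain ⟨hqT, hqw⟩ := mem_filter.1 hq
    obtain ⟨hsf, hq53, hy1, hy2, _, _, _⟩ := hTall q hqT
    refine ⟨?_, ?_, ?_, ?_, hgood q hqT⟩
    · rw [hrW, Nat.squarefree_mul_iff]
      refine ⟨(Pr_qs_cop hsf).symm, hWsf, ?_⟩
      rw [← Pr_mul W q] at hsf
      exact hsf.of_mul_right
    · refine le_trans ?_ hq53
      rw [← Pr_mul W q] at hsf ⊢
      have h2 : Pr (qw W q) ≠ 0 := hsf.of_mul_left.ne_zero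
      exact_mod_cast Nat.le_mul_of_pos_left _ (Nat.pos_of_ne_zero h2)
    · simp only [← hqw, hYq]
      exact hy1
    · simp only [← hqw, hYq]
      exact hy2
  have hmain : ∑ q ∈ T, ∑ b ∈ BF, F b (qw W q) (qs W q) ≤
      (Ws.card : ℝ) * ((BF.card : ℝ) * (X / (Real.log X) ^ (A + 1))) := by
    rw [← Finset.sum_fiberwise_of_maps_to hmaps]
    calc ∑ w ∈ Ws, ∑ q ∈ T.filter (fun q => qw W q = w), ∑ b ∈ BF, F b (qw W q) (qs W q)
        ≤ ∑ w ∈ Ws, (BF.card : ℝ) * (X / (Real.log X) ^ (A + 1)) := by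
          refine sum_le_sum fun w hw => ?_
          rw [sum_comm]
          refine (sum_le_sum fun b hb => hfib w hw b hb).trans (le_of_eq ?_)
          rw [sum_const, nsmul_eq_mul]
      _ = _ := by rw [sum_const, nsmul_eq_mul]
  have hXLA : 0 < X / (Real.log X) ^ A := by positivity
  calc ∑ q ∈ T, tau (Pr q) ^ C * |E (Y q) (Pr q) (l q)|
      ≤ ∑ q ∈ T, (tau W ^ C * ∑ b ∈ BF, F b (qw W q) (qs W q) + W * tau (Pr q) ^ C) := sum_le_sum hterm
    _ = tau W ^ C * ∑ q ∈ T, ∑ b ∈ BF, F b (qw W q) (qs W q) + W * ∑ q ∈ T, tau (Pr q) ^ C := by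
        rw [sum_add_distrib, ← mul_sum, ← mul_sum]
    _ ≤ tau W ^ C * ((Ws.card : ℝ) * ((BF.card : ℝ) * (X / (Real.log X) ^ (A + 1)))) +
        W * X ^ (53 / 100 + 1 / 100 : ℝ) := by
        apply add_le_add
        · exact mul_le_mul_of_nonneg_left hmain (pow_nonneg (tau_nonneg _) _)
        · refine mul_le_mul_of_nonneg_left (hbt T ?_) hW0'.le
          intro q hq
          obtain ⟨hsf, hq53, _⟩ := hTall q hq
          rw [ZG.rd_eq squarefree_one, one_mul]
          exact ⟨hsf, hq53⟩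
    _ = Cst * (X / (Real.log X) ^ (A + 1)) + W * X ^ (53 / 100 + 1 / 100 : ℝ) := by
        rw [hCst]; ring
    _ ≤ 1 / 2 * (X / (Real.log X) ^ A) + 1 / 2 * (X / (Real.log X) ^ A) := by
        apply add_le_add
        · have : X / (Real.log X) ^ (A + 1) = X / (Real.log X) ^ A / Real.log X := by rw [pow_succ, div_div]
          rw [this, ← mul_div_assoc, div_le_iff₀ hL0]
          nlinarith
        · have c1 : X ^ (53 / 100 + 1 / 100 : ℝ) * X ^ (1 / 10 : ℝ) ≤ X := by
            rw [← Real.rpow_add hX0]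
            calc X ^ (53 / 100 + 1 / 100 + 1 / 10 : ℝ) ≤ X ^ (1 : ℝ) :=
                  Real.rpow_le_rpow_of_exponent_le hX1 (by norm_num)
              _ = X := Real.rpow_one X
          have c2 : 0 < X ^ (53 / 100 + 1 / 100 : ℝ) := by positivity
          rw [← mul_div_assoc, le_div_iff₀ (by positivity)]
          have c3 := mul_le_mul_of_nonneg_left e1 c2.le
          linarith
    _ = X / (Real.log X) ^ A := by ring

end Pool.Agent.Y826.LM
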