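import Pool.Agent.Y826.LD.Sharp
import Pool.Agent.Y826.LM.Defs

/-! Project Y826/LM, job LMB: sharp cut-offs, any set of tuples. -/

set_option autoImplicit false

open Finset Filter

namespace Pool.Agent.Y826.LM

open Pool.Agent.Y826.LD.Sh
open Pool.Agent.Y826.LD (psi)
open Pool.Agent.H378R2 (EPhi Phi)
open Pool.Agent.Y826.Z (Pr tau GoodT)
open Pool.Agent.Y826.ZG (rd Hyp Cls)
open Pool.Agent.Y826.ZG.Y950 (tau_nonneg one_le_tau)

/-- the inequalities are stable -/
lemma goodP_scale {K : ℕ} {δ : ℝ} (hδ : 0 < δ) {x : Fin K → ℝ} (hx : ∀ j, 0 ≤ x j) (hs : ∑ j, x j ≤ 1)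
    (hG : GoodP δ x) (e : ℝ) (he : 0 ≤ e) (he1 : e ≤ δ / 200) (c : ℝ) (hc1 : 1 ≤ c) (hc2 : c ≤ 1 + e) :
    GoodP (δ / 2) (fun j => c * x j) := by
  intro ν hν1 hν2
  obtain ⟨g, hg⟩ := hG ν (by linarith) (by linarith)
  refine ⟨g, ?_⟩
  intro y hy η hη
  have h5 := hg (fun i => ∑ j ∈ univ.filter (fun j => g j = i), x j) (fun i => rfl) _ rfl
  have hyd : ∀ i, 0 ≤ y i - ∑ j ∈ univ.filter (fun j => g j = i), x j ∧
      y i - ∑ j ∈ univ.filter (fun j => g j = i), x j ≤ e := by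
    intro i
    rw [hy i, ← Finset.mul_sum]
    have h0 : 0 ≤ ∑ j ∈ univ.filter (fun j => g j = i), x j := Finset.sum_nonneg fun j _ => hx j
    have h1 : ∑ j ∈ univ.filter (fun j => g j = i), x j ≤ 1 :=
      (Finset.sum_le_sum_of_subset_of_nonneg (Finset.subset_univ _) fun j _ _ => hx j).trans hs
    constructor <;> nlinarith
  have y0 := hyd 0
  have y1 := hyd 1
  have y2 := hyd 2
  have y3 := hyd 3
  have y4 := hyd 4
  beta_reduce at h5
  set z0 := ∑ j ∈ univ.filter (fun j => g j = 0), x j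
  set z1 := ∑ j ∈ univ.filter (fun j => g j = 1), x j
  set z2 := ∑ j ∈ univ.filter (fun j => g j = 2), x j
  set z3 := ∑ j ∈ univ.filter (fun j => g j = 3), x j
  set z4 := ∑ j ∈ univ.filter (fun j => g j = 4), x j
  set η0 := max 0 (z0 + z1 + 2 * z2 + 2 * z3 + 2 * z4 - (1 - ν)) with hη0
  have hη1 : η ≤ η0 + 8 * e := by
    rw [hη]
    apply max_le
    · have : 0 ≤ η0 := le_max_left _ _
      linarith
    · have : z0 + z1 + 2 * z2 + 2 * z3 + 2 * z4 - (1 - ν) ≤ η0 := le_max_right _ _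
      linarith
  obtain ⟨a1, a2, a3, a4, a5⟩ := h5
  refine ⟨by linarith, by linarith, by linarith, by linarith, by linarith⟩

lemma lg_nonneg {K : ℕ} {X : ℝ} (hX : 1 ≤ X) (q : Fin K → ℕ) (j : Fin K) : 0 ≤ lg X q j :=
  div_nonneg (Real.log_natCast_nonneg _) (Real.log_nonneg hX)

lemma lg_sum {K : ℕ} {X : ℝ} (hX : 1 < X) (q : Fin K → ℕ) (hq : Pr q ≠ 0) (s : ℝ)
    (h : (Pr q : ℝ) ≤ X ^ s) : ∑ j, lg X q j ≤ s := by
  have hL : 0 < Real.log X := Real.log_pos hX
  have h0 : (0 : ℝ) < Pr q := by exact_mod_cast Nat.pos_of_ne_zero hq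
  have h1 : ∑ j, lg X q j = Real.log (Pr q) / Real.log X := by
    unfold lg
    rw [← Finset.sum_div]
    congr 1
    unfold Pr
    push_cast
    rw [Real.log_prod]
    intro j _
    unfold Pr at hq
    have := Finset.prod_ne_zero_iff.1 hq j (mem_univ j)
    exact_mod_cast this
  rw [h1, div_le_iff₀ hL, ← Real.log_rpow (by linarith)]
  exact Real.log_le_log h0 h

/-- all the scales up to `X` -/
lemma U_boundM (hZ : S_ZZM) (K : ℕ) (h : Fin K → ℤ × ℤ) (W b : ℕ) (hyp : Hyp h W b) (δ : ℝ) (hδ : 0 < δ)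
    (bq : (Fin K → ℕ) → ℕ) (hbq : Cls h W b bq) (A C : ℕ) :
    ∀ᶠ X : ℝ in atTop, ∀ T : Finset (Fin K → ℕ),
      (∀ q ∈ T, Squarefree (rd W * Pr q) ∧ (Pr q : ℝ) ≤ X ^ (53 / 100 : ℝ) ∧
        ((Pr q : ℝ) ≤ X ^ (1 / 2 - δ) ∨ GoodP δ (lg X q))) → ∀ v : ℝ, v ≤ Real.log X →
      ∑ q ∈ T, tau (Pr q) ^ C * |EPhi (Real.exp v) (W * Pr q) (bq q)| ≤ X / (Real.log X) ^ A := by
  set e : ℝ := min (δ / 200) (1 / 100) with he
  have he0 : 0 < e := lt_min (by positivity) (by norm_num)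
  have he1 : e ≤ δ / 200 := min_le_left _ _
  have he2 : e ≤ 1 / 100 := min_le_right _ _
  have hZ1 := hZ K h W b hyp (δ / 2) (by positivity) bq hbq (A + 1) C
  obtain ⟨X0, hX0⟩ := Filter.eventually_atTop.1 hZ1
  set R : ℕ := 2 ^ (K + C + 1) with hR
  have hr1 : 1 / (1 + e) < 1 := by rw [div_lt_one (by linarith)]; linarith
  have hr0 : 0 < 1 / (1 + e) := by positivity
  have hev := Real.tendsto_log_atTop.eventually (ev_exp (1 / (1 + e)) hr1 (7 * 2 ^ (R + 1)) (R + A + 1))
  have hev2 : ∀ᶠ X : ℝ in atTop, X0 ≤ Real.exp (1 / (1 + e) * Real.log X) :=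
    (Real.tendsto_exp_atTop.comp (Real.tendsto_log_atTop.const_mul_atTop hr0)).eventually_ge_atTop X0
  filter_upwards [hev, hev2, eventually_ge_atTop 3,
    Real.tendsto_log_atTop.eventually_ge_atTop ((2 : ℝ) ^ (A + 1)),
    Real.tendsto_log_atTop.eventually_ge_atTop 2] with X h1 h2 h3 h4 h5
  intro T hT v hv
  have hXp : 0 < X := by linarith
  set L := Real.log X with hL
  have hXL : X = Real.exp L := (Real.exp_log hXp).symm
  have hLp : 0 < L := by linarith
  have hTsq : ∀ q ∈ T, Squarefree (rd W * Pr q) := fun q hq => (hT q hq).1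
  have hTle : ∀ q ∈ T, (Pr q : ℝ) ≤ X ^ (53 / 100 : ℝ) := fun q hq => (hT q hq).2.1
  have hTleX : ∀ q ∈ T, Squarefree (rd W * Pr q) ∧ (Pr q : ℝ) ≤ X := fun q hq =>
    ⟨hTsq q hq, (hTle q hq).trans (by
      calc X ^ (53 / 100 : ℝ) ≤ X ^ (1 : ℝ) := Real.rpow_le_rpow_of_exponent_le (by linarith) (by norm_num)
        _ = X := Real.rpow_one X)⟩
  rcases le_or_gt (1 / (1 + e) * L) v with hvr | hvr
  · -- scales near `X`
    have hv0 : 0 < v := lt_of_lt_of_le (by positivity) hvr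
    have h6 := hX0 (Real.exp v) (h2.trans (Real.exp_le_exp.2 hvr))
    rw [Real.log_exp] at h6
    have hLv : L ≤ v * (1 + e) := by
      rw [one_div, inv_mul_le_iff₀ (by linarith)] at hvr
      linarith
    have h7 := h6 T (by
      intro q hq
      obtain ⟨q1, q2, q3⟩ := hT q hq
      have hPr : Pr q ≠ 0 := (q1.of_mul_right).ne_zero
      refine ⟨q1, ?_, ?_⟩
      · refine q2.trans ?_
        rw [rpow_eq hXp, rpow_eq (Real.exp_pos v), Real.log_exp]
        apply Real.exp_le_exp.2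
        rw [← hL]
        nlinarith
      · rcases q3 with q3 | q3
        · left
          refine q3.trans ?_
          rw [rpow_eq hXp, rpow_eq (Real.exp_pos v), Real.log_exp]
          apply Real.exp_le_exp.2
          rw [← hL]
          rcases le_total 0 (1 / 2 - δ) with hd | hd
          · have a1 : (1 / 2 - δ) * L ≤ (1 / 2 - δ) * (v * (1 + e)) := mul_le_mul_of_nonneg_left hLv hd
            have a2 : (1 / 2 - δ) * (v * (1 + e)) = v * ((1 / 2 - δ) * (1 + e)) := by ring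
            have a3 : (1 / 2 - δ) * (1 + e) ≤ 1 / 2 - δ / 2 := by nlinarith
            have a4 := mul_le_mul_of_nonneg_left a3 hv0.le
            linarith
          · have a1 : (1 / 2 - δ) * L ≤ (1 / 2 - δ) * v := mul_le_mul_of_nonpos_left hv hd
            have a2 := mul_pos (half_pos hδ) hv0
            nlinarith
        · right
          have hc1 : 1 ≤ L / v := by rw [le_div_iff₀ hv0]; linarith
          have hc2 : L / v ≤ 1 + e := by rw [div_le_iff₀ hv0]; linarith
          have hs := lg_sum (show 1 < X by linarith) q hPr _ q2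
          have h8 := goodP_scale hδ (lg_nonneg (show 1 ≤ X by linarith) q) (by linarith) q3 e he0.le he1
            (L / v) hc1 hc2
          have h9 : lg (Real.exp v) q = fun j => L / v * lg X q j := by
            funext j
            unfold lg
            rw [Real.log_exp, ← hL]
            field_simp
          rw [h9]
          exact h8)
    refine h7.trans ?_
    have hv2 : L / 2 ≤ v := by nlinarith
    have h7 : Real.exp v ≤ X := by rw [hXL]; exact Real.exp_le_exp.2 hv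
    calc Real.exp v / v ^ (A + 1) ≤ X / (L / 2) ^ (A + 1) := by
          apply div_le_div₀ hXp.le h7 (by positivity)
          exact pow_le_pow_left₀ (by positivity) hv2 _
      _ = X / L ^ A * (2 ^ (A + 1) / L) := by
          rw [div_pow, pow_succ L A, pow_succ (2 : ℝ) A]; field_simp
      _ ≤ X / L ^ A * 1 := by
          apply mul_le_mul_of_nonneg_left _ (by positivity)
          rw [div_le_one hLp]
          exact h4
      _ = X / L ^ A := mul_one _
  · -- small scales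
    have hW := hyp.wpos
    have hQ : ∀ q ∈ T, 0 < W * Pr q := fun q hq =>
      Nat.mul_pos hW (Nat.pos_of_ne_zero ((hTsq q hq).of_mul_right).ne_zero)
    have hb : ∀ q ∈ T, tau (Pr q) ^ C * |EPhi (Real.exp v) (W * Pr q) (bq q)| ≤
        (L + 2) * (6 * Real.exp (1 / (1 + e) * L)) * (tau (Pr q) ^ C * (1 / (Nat.totient (W * Pr q) : ℝ))) +
          (L + 2) * tau (Pr q) ^ C := by
      intro q hq
      have h6 := EPhi_triv v L (W * Pr q) (bq q) (hQ q hq) hv hLp.le
      have h7 : 6 * Real.exp v / (Nat.totient (W * Pr q) : ℝ) ≤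
          6 * Real.exp (1 / (1 + e) * L) / (Nat.totient (W * Pr q) : ℝ) := by
        gcongr
      have h8 : |EPhi (Real.exp v) (W * Pr q) (bq q)| ≤
          (L + 2) * (6 * Real.exp (1 / (1 + e) * L) / (Nat.totient (W * Pr q) : ℝ) + 1) :=
        h6.trans (mul_le_mul_of_nonneg_left (by linarith) (by linarith))
      refine (mul_le_mul_of_nonneg_left h8 (pow_nonneg (tau_nonneg _) _)).trans (le_of_eq ?_)
      ring
    refine (Finset.sum_le_sum hb).trans ?_
    rw [Finset.sum_add_distrib, ← Finset.mul_sum, ← Finset.mul_sum]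
    have t1 := T1 W C hW X h3 T hTleX
    have t2 := T2 W C X h3 T hTleX (X ^ (53 / 100 : ℝ)) hTle (Real.rpow_nonneg hXp.le _)
    rw [← hR, ← hL] at t1 t2
    have h8 : X ^ (53 / 100 : ℝ) ≤ Real.exp (1 / (1 + e) * L) := by
      rw [rpow_eq hXp]
      apply Real.exp_le_exp.2
      apply mul_le_mul_of_nonneg_right _ hLp.le
      rw [le_div_iff₀ (by linarith)]
      linarith
    have h9 : (L + 2) * (1 + L) ^ R ≤ 2 ^ (R + 1) * L ^ (R + 1) := by
      calc (L + 2) * (1 + L) ^ R ≤ (2 * L) * (2 * L) ^ R := by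
            apply mul_le_mul (by linarith) _ (by positivity) (by positivity)
            exact pow_le_pow_left₀ (by positivity) (by linarith) _
        _ = 2 ^ (R + 1) * L ^ (R + 1) := by rw [← pow_succ', mul_pow]
    set EE := Real.exp (1 / (1 + e) * L) with hEE
    have hEE0 : 0 < EE := Real.exp_pos _
    calc (L + 2) * (6 * EE) * ∑ q ∈ T, tau (Pr q) ^ C * (1 / (Nat.totient (W * Pr q) : ℝ)) +
          (L + 2) * ∑ q ∈ T, tau (Pr q) ^ C
        ≤ (L + 2) * (6 * EE) * (1 + L) ^ R + (L + 2) * (EE * (1 + L) ^ R) := by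
          apply add_le_add
          · exact mul_le_mul_of_nonneg_left t1 (by positivity)
          · apply mul_le_mul_of_nonneg_left _ (by positivity)
            exact t2.trans (mul_le_mul_of_nonneg_right h8 (by positivity))
      _ = 7 * EE * ((L + 2) * (1 + L) ^ R) := by ring
      _ ≤ 7 * EE * (2 ^ (R + 1) * L ^ (R + 1)) := mul_le_mul_of_nonneg_left h9 (by positivity)
      _ ≤ X / L ^ A := by
          rw [le_div_iff₀ (by positivity)]
          calc 7 * EE * (2 ^ (R + 1) * L ^ (R + 1)) * L ^ A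
              = 7 * 2 ^ (R + 1) * L ^ (R + A + 1) * EE := by ring
            _ ≤ Real.exp L := h1
            _ = X := hXL.symm

theorem shm (hZ : S_ZZM) : S_SHM := by
  classical
  intro K h W b hyp δ hδ bq hbq A C
  set R : ℕ := 2 ^ (K + C + 1) with hR
  set A1 : ℕ := A + R + 2 with hA1
  set A2 : ℕ := 2 * A1 + 3 + A + 1 with hA2
  have hev := Real.tendsto_log_atTop.eventually (ev_exp (53 / 100) (by norm_num) (3 * 2 ^ (R + 1)) (R + 1 + (A + 1)))
  filter_upwards [U_boundM hZ K h W b hyp δ hδ bq hbq A2 C, hev, eventually_ge_atTop 3,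
    Real.tendsto_log_atTop.eventually_ge_atTop (145 + 6 * (2 : ℝ) ^ (R + 1))] with X hU h1 h3 h4
  intro Y T hT
  have hXp : 0 < X := by linarith
  set L := Real.log X with hL
  have hXL : X = Real.exp L := (Real.exp_log hXp).symm
  have hL1 : 1 ≤ L := by
    have : (0 : ℝ) < 2 ^ (R + 1) := by positivity
    linarith
  have hLp : 0 < L := by linarith
  have hTsq : ∀ q ∈ T, Squarefree (rd W * Pr q) := fun q hq => (hT q hq).1
  have hTle : ∀ q ∈ T, (Pr q : ℝ) ≤ X ^ (53 / 100 : ℝ) := fun q hq => (hT q hq).2.1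
  have hU' := hU T (fun q hq => ⟨(hT q hq).1, (hT q hq).2.1, (hT q hq).2.2.2⟩)
  have hTleX : ∀ q ∈ T, Squarefree (rd W * Pr q) ∧ (Pr q : ℝ) ≤ X := fun q hq =>
    ⟨hTsq q hq, (hTle q hq).trans (by
      calc X ^ (53 / 100 : ℝ) ≤ X ^ (1 : ℝ) := Real.rpow_le_rpow_of_exponent_le (by linarith) (by norm_num)
        _ = X := Real.rpow_one X)⟩
  set η : ℝ := 1 / L ^ A1 with hη
  have hη0 : 0 < η := by positivity
  have hη1 : η ≤ 1 := by
    rw [hη, div_le_one (by positivity)]
    exact one_le_pow₀ hL1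
  set N : ℕ := ⌈2 * L + 2⌉₊ with hN
  have hN1 : 2 * L + 2 ≤ (N : ℝ) := Nat.le_ceil _
  have hN2 : (N : ℝ) < 2 * L + 2 + 1 := Nat.ceil_lt_add_one (by positivity)
  have key := main_ineq T (fun q => tau (Pr q) ^ C) (fun q _ => pow_nonneg (tau_nonneg _) _)
    (fun q => W * Pr q) bq (fun q hq => Nat.mul_pos hyp.wpos (Nat.pos_of_ne_zero ((hTsq q hq).of_mul_right).ne_zero))
    L η (X / L ^ A2) hLp.le hη0 hη1 Y (fun q hq => by rw [← hXL]; exact (hT q hq).2.2.1) hU' N (by linarith)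
  beta_reduce at key
  refine key.trans ?_
  have t1 := T1 W C hyp.wpos X h3 T hTleX
  have t2 := T2 W C X h3 T hTleX (X ^ (53 / 100 : ℝ)) hTle (Real.rpow_nonneg hXp.le _)
  rw [← hR, ← hL] at t1 t2
  rw [rpow_eq hXp, ← hL] at t2
  rw [← hXL]
  -- first part
  have p1 : ((⌊L / η⌋₊ : ℝ) + 1) * ((1 / η) * (2 * (((N : ℝ) + 1) ^ 2 * (X / L ^ A2)))) ≤
      144 * (X / L ^ (A + 1)) := by
    have q1 : (⌊L / η⌋₊ : ℝ) + 1 ≤ 2 * L ^ (A1 + 1) := by
      have : (⌊L / η⌋₊ : ℝ) ≤ L / η := Nat.floor_le (by positivity)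
      have h5 : L / η = L ^ (A1 + 1) := by
        rw [hη, div_div_eq_mul_div, div_one, pow_succ' L A1]
      have h6 : (1 : ℝ) ≤ L ^ (A1 + 1) := one_le_pow₀ hL1
      linarith
    have q2 : 1 / η = L ^ A1 := by rw [hη]; field_simp
    have q3 : ((N : ℝ) + 1) ^ 2 ≤ 36 * L ^ 2 := by
      calc ((N : ℝ) + 1) ^ 2 ≤ (6 * L) ^ 2 := pow_le_pow_left₀ (by positivity) (by linarith) 2
        _ = 36 * L ^ 2 := by ring
    rw [q2]
    calc ((⌊L / η⌋₊ : ℝ) + 1) * (L ^ A1 * (2 * (((N : ℝ) + 1) ^ 2 * (X / L ^ A2))))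
        ≤ (2 * L ^ (A1 + 1)) * (L ^ A1 * (2 * ((36 * L ^ 2) * (X / L ^ A2)))) := by
          gcongr
      _ = 144 * (X / L ^ (A + 1)) := by
          rw [hA2]
          field_simp
          ring
  have p2 : (L + 1) * (6 * η * X * ∑ q ∈ T, tau (Pr q) ^ C * (1 / (Nat.totient (W * Pr q) : ℝ)) +
      3 * ∑ q ∈ T, tau (Pr q) ^ C) ≤ 6 * 2 ^ (R + 1) * (X / L ^ (A + 1)) + X / L ^ (A + 1) := by
    have q1 : (L + 1) * (1 + L) ^ R ≤ 2 ^ (R + 1) * L ^ (R + 1) := by
      calc (L + 1) * (1 + L) ^ R ≤ (2 * L) * (2 * L) ^ R := by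
            apply mul_le_mul (by linarith) _ (by positivity) (by positivity)
            exact pow_le_pow_left₀ (by positivity) (by linarith) _
        _ = 2 ^ (R + 1) * L ^ (R + 1) := by rw [← pow_succ', mul_pow]
    calc (L + 1) * (6 * η * X * ∑ q ∈ T, tau (Pr q) ^ C * (1 / (Nat.totient (W * Pr q) : ℝ)) +
          3 * ∑ q ∈ T, tau (Pr q) ^ C)
        ≤ (L + 1) * (6 * η * X * (1 + L) ^ R + 3 * (Real.exp (53 / 100 * L) * (1 + L) ^ R)) := by
          gcongr
      _ = (6 * η * X + 3 * Real.exp (53 / 100 * L)) * ((L + 1) * (1 + L) ^ R) := by ring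
      _ ≤ (6 * η * X + 3 * Real.exp (53 / 100 * L)) * (2 ^ (R + 1) * L ^ (R + 1)) :=
          mul_le_mul_of_nonneg_left q1 (by positivity)
      _ = 6 * 2 ^ (R + 1) * (X * (η * L ^ (R + 1))) + 3 * 2 ^ (R + 1) * L ^ (R + 1) * Real.exp (53 / 100 * L) := by
          ring
      _ ≤ 6 * 2 ^ (R + 1) * (X / L ^ (A + 1)) + X / L ^ (A + 1) := by
          apply add_le_add
          · apply mul_le_mul_of_nonneg_left _ (by positivity)
            rw [div_eq_mul_one_div]
            apply mul_le_mul_of_nonneg_left _ hXp.le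
            apply le_of_eq
            rw [hη, hA1, show A + R + 2 = (R + 1) + (A + 1) by ring, pow_add]
            field_simp
          · rw [le_div_iff₀ (by positivity)]
            calc 3 * 2 ^ (R + 1) * L ^ (R + 1) * Real.exp (53 / 100 * L) * L ^ (A + 1)
                = 3 * 2 ^ (R + 1) * L ^ (R + 1 + (A + 1)) * Real.exp (53 / 100 * L) := by
                  rw [pow_add L (R + 1) (A + 1)]; ring
              _ ≤ Real.exp L := h1
              _ = X := hXL.symm
  refine (add_le_add p1 p2).trans ?_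
  have hfin : 144 * (X / L ^ (A + 1)) + (6 * 2 ^ (R + 1) * (X / L ^ (A + 1)) + X / L ^ (A + 1)) =
      (X / L ^ A) * ((145 + 6 * 2 ^ (R + 1)) / L) := by
    rw [pow_succ L A]
    field_simp
    ring
  rw [hfin]
  calc (X / L ^ A) * ((145 + 6 * 2 ^ (R + 1)) / L) ≤ (X / L ^ A) * 1 := by
        apply mul_le_mul_of_nonneg_left _ (by positivity)
        rw [div_le_one hLp]
        exact h4
    _ = X / L ^ A := mul_one _

end Pool.Agent.Y826.LM
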