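import Mathlib
import Pool.Agent.Y826.ZG.Main
import Pool.Agent.Y826.LM.ZZM
import Pool.Agent.Y826.LM.ShM
import Pool.Agent.Y826.LM.PiM
import Pool.Agent.Y826.LM.MainM

/-! Project Y826/LM: level of distribution of the primes beyond `1/2`, for residue classes given by fixed linear
forms and for all the moduli which factor well: unconditional theorem. -/

open Finset Filter

namespace Pool.Agent.Y826.LM

theorem s_main : S_MAIN := mainm (pim (shm (zzm Pool.Agent.Y826.ZG.s_z)))

end Pool.Agent.Y826.LM
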